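import Pool.Agent.TH438.Hull.Dual
import Pool.Agent.TH438.Hull.Equality

set_option autoImplicit false

/-!
Convex bodies which are a cone on one side of a hyperplane `H` through the interior point `o`:
directions for the polar body from directions for the polar body of the section by `H`.
-/

open Set Topology Module
open scoped InnerProductSpace
open Pool.Agent.H843R3.Had2
open Pool.Agent.TH438.Hull

namespace Pool.Agent.Q139.Cone

abbrev Es (d : ℕ) : Type := EuclideanSpace ℝ (Fin d)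

/-- `K` is a cone with apex `p` over the section by the hyperplane `o + range ι`, with the normal
vector `n`, on the side of this hyperplane that contains `p`. -/
structure Hyp {d : ℕ} (K : Set (Es (d + 1))) (o p n : Es (d + 1)) (ι : Es d →ₗᵢ[ℝ] Es (d + 1)) :
    Prop where
  conv : Convex ℝ K
  comp : IsCompact K
  int : o ∈ interior K
  perp : ∀ x, ⟪n, ι x⟫_ℝ = 0
  pK : p ∈ K
  neg : ⟪n, p - o⟫_ℝ < 0
  cone : ∀ y ∈ K, ⟪n, y - o⟫_ℝ ≤ 0 → y ∈ convexHull ℝ (insert p (K ∩ {z | ⟪n, z - o⟫_ℝ = 0}))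

variable {d : ℕ} {K : Set (Es (d + 1))} {o p n : Es (d + 1)} {ι : Es d →ₗᵢ[ℝ] Es (d + 1)}

theorem neg_side (H : Hyp K o p n ι) {b : Es (d + 1)} {c : ℝ} (hp : ⟪b, p - o⟫_ℝ ≤ c)
    (hb : ∀ y ∈ K, ⟪n, y - o⟫_ℝ = 0 → ⟪b, y - o⟫_ℝ ≤ c) :
    ∀ y ∈ K, ⟪n, y - o⟫_ℝ ≤ 0 → ⟪b, y - o⟫_ℝ ≤ c := by
  intro y hy hn
  have h1 : convexHull ℝ (insert p (K ∩ {z | ⟪n, z - o⟫_ℝ = 0})) ⊆ {z | ⟪b, z - o⟫_ℝ ≤ c} := by
    refine convexHull_min ?_ ?_
    · rintro z (rfl | ⟨hz, hz0⟩)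
      · exact hp
      · exact hb z hz hz0
    · intro x hx z hz r s hr hs hrs
      obtain rfl : s = 1 - r := by linarith
      show ⟪b, r • x + (1 - r) • z - o⟫_ℝ ≤ c
      have h2 : r • x + (1 - r) • z - o = r • (x - o) + (1 - r) • (z - o) := by module
      rw [h2, inner_add_right, real_inner_smul_right, real_inner_smul_right]
      have hx' : ⟪b, x - o⟫_ℝ ≤ c := hx
      have hz' : ⟪b, z - o⟫_ℝ ≤ c := hz
      nlinarith
  exact h1 (H.cone y hy hn)

theorem pos_side (H : Hyp K o p n ι) {a : Es (d + 1)} {ρ : ℝ} (hρ : 0 ≤ ρ)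
    (hap : ⟪a, p - o⟫_ℝ = 1) (ha : ∀ y ∈ K, ⟪n, y - o⟫_ℝ = 0 → ⟪a, y - o⟫_ℝ ≤ 1 - ρ) :
    ∀ y ∈ K, 0 ≤ ⟪n, y - o⟫_ℝ → ⟪a, y - o⟫_ℝ ≤ 1 - ρ := by
  intro y hy hn
  obtain ⟨h, hh⟩ : ∃ h : ℝ, h = -⟪n, p - o⟫_ℝ := ⟨_, rfl⟩
  have hpos : 0 < h := by have := H.neg; linarith
  obtain ⟨k, hk⟩ : ∃ k : ℝ, k = ⟪n, y - o⟫_ℝ := ⟨_, rfl⟩
  rw [← hk] at hn
  have hhk : 0 < h + k := by linarith
  have hy0 : (h / (h + k)) • y + (k / (h + k)) • p ∈ K :=
    H.conv hy H.pK (by positivity) (by positivity) (by field_simp)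
  have e : ∀ b : Es (d + 1), ⟪b, (h / (h + k)) • y + (k / (h + k)) • p - o⟫_ℝ =
      (h * ⟪b, y - o⟫_ℝ + k * ⟪b, p - o⟫_ℝ) / (h + k) := by
    intro b
    have e1 : (h / (h + k)) • y + (k / (h + k)) • p - o =
        (h / (h + k)) • (y - o) + (k / (h + k)) • (p - o) := by
      have : h / (h + k) = 1 - k / (h + k) := by field_simp; ring
      rw [this]; module
    rw [e1, inner_add_right, real_inner_smul_right, real_inner_smul_right]
    field_simp
  have h1 := ha _ hy0 (by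
    have h2 : ⟪n, p - o⟫_ℝ = -h := by rw [hh]; ring
    rw [e, ← hk, h2]
    have : h * k + k * -h = 0 := by ring
    rw [this, zero_div])
  rw [e, hap, div_le_iff₀ hhk] at h1
  refine le_of_mul_le_mul_left ?_ hpos
  nlinarith [mul_nonneg hρ hn]

theorem n_ne (H : Hyp K o p n ι) : n ≠ 0 := by
  rintro rfl
  have := H.neg
  simp at this

theorem perp_span (H : Hyp K o p n ι) {b : Es (d + 1)} (hb : ∀ x, ⟪b, ι x⟫_ℝ = 0) :
    ∃ c : ℝ, b = c • n := by
  have hn := n_ne H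
  set R := LinearMap.range ι.toLinearMap with hR
  have h1 : finrank ℝ R = d := by
    rw [hR, LinearMap.finrank_range_of_inj ι.injective]; simp
  have h2 : finrank ℝ Rᗮ = 1 := by
    have := R.finrank_add_finrank_orthogonal
    rw [h1] at this
    simp at this
    omega
  have hnR : n ∈ Rᗮ := by
    rw [Submodule.mem_orthogonal']
    rintro _ ⟨x, rfl⟩
    exact H.perp x
  have hbR : b ∈ Rᗮ := by
    rw [Submodule.mem_orthogonal']
    rintro _ ⟨x, rfl⟩
    exact hb x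
  obtain ⟨c, hc⟩ := (finrank_eq_one_iff_of_nonzero' (⟨n, hnR⟩ : Rᗮ)
    (by intro h; exact hn (congrArg Subtype.val h))).1 h2 ⟨b, hbR⟩
  exact ⟨c, (congrArg Subtype.val hc).symm⟩

theorem exists_sec (H : Hyp K o p n ι) {z : Es (d + 1)} (hz : ⟪n, z⟫_ℝ = 0) : ∃ x, ι x = z := by
  have hn := n_ne H
  set R := LinearMap.range ι.toLinearMap with hR
  obtain ⟨a, ha, b, hb, rfl⟩ := R.exists_add_mem_mem_orthogonal z
  obtain ⟨c, hc⟩ := perp_span H (b := b) (fun x => by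
    rw [Submodule.mem_orthogonal'] at hb
    exact hb _ ⟨x, rfl⟩)
  obtain ⟨x, hx⟩ := ha
  rw [inner_add_right] at hz
  have h1 : ⟪n, a⟫_ℝ = 0 := by rw [← hx]; exact H.perp x
  rw [h1, zero_add, hc, real_inner_smul_right, real_inner_self_eq_norm_sq] at hz
  have h2 : c = 0 := by
    rcases mul_eq_zero.1 hz with h | h
    · exact h
    · exact absurd (norm_eq_zero.1 (pow_eq_zero_iff (two_ne_zero) |>.1 h)) hn
  refine ⟨x, ?_⟩
  rw [hc, h2, zero_smul, add_zero]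
  exact hx

/-- the height above the facet of the polar body that belongs to `p` -/
noncomputable def ht (o p n : Es (d + 1)) (v : Es (d + 1)) : ℝ :=
  (1 - ⟪v, p - o⟫_ℝ) / (-⟪n, p - o⟫_ℝ)

/-- the projection to the hyperplane of the facet -/
noncomputable def pr (o p n : Es (d + 1)) (v : Es (d + 1)) : Es (d + 1) := v - ht o p n v • n

theorem ht_nonneg (H : Hyp K o p n ι) {v : Es (d + 1)} (hv : v ∈ Pol K o) : 0 ≤ ht o p n v := by
  have h1 := hv p H.pK
  have h2 := H.neg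
  exact div_nonneg (by linarith) (by linarith)

theorem inner_pr (H : Hyp K o p n ι) (v : Es (d + 1)) : ⟪pr o p n v, p - o⟫_ℝ = 1 := by
  have h2 := H.neg
  have h3 : -⟪n, p - o⟫_ℝ ≠ 0 := by linarith
  rw [pr, inner_sub_left, real_inner_smul_left, ht]
  have h4 : (1 - ⟪v, p - o⟫_ℝ) / (-⟪n, p - o⟫_ℝ) * ⟪n, p - o⟫_ℝ = -(1 - ⟪v, p - o⟫_ℝ) := by
    rw [div_mul_eq_mul_div, div_eq_iff h3]; ring
  rw [h4]; ring

theorem pr_mem (H : Hyp K o p n ι) {v : Es (d + 1)} (hv : v ∈ Pol K o) :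
    pr o p n v ∈ Pol K o := by
  have hs := ht_nonneg H hv
  intro y hy
  rcases le_total ⟪n, y - o⟫_ℝ 0 with h1 | h1
  · refine neg_side H (le_of_eq (inner_pr H v)) ?_ y hy h1
    intro y hy h2
    rw [pr, inner_sub_left, real_inner_smul_left, h2, mul_zero, sub_zero]
    exact hv y hy
  · rw [pr, inner_sub_left, real_inner_smul_left]
    have := hv y hy
    nlinarith [mul_nonneg hs h1]

/-- the vector `t` of the hyperplane, corrected by a multiple of `n` -/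
noncomputable def lft (o p n : Es (d + 1)) (ι : Es d →ₗᵢ[ℝ] Es (d + 1)) (t : Es d) : Es (d + 1) :=
  ι t + (⟪ι t, p - o⟫_ℝ / (-⟪n, p - o⟫_ℝ)) • n

theorem inner_lft_p (H : Hyp K o p n ι) (t : Es d) : ⟪lft o p n ι t, p - o⟫_ℝ = 0 := by
  have h2 := H.neg
  have h3 : -⟪n, p - o⟫_ℝ ≠ 0 := by linarith
  rw [lft, inner_add_left, real_inner_smul_left]
  have h4 : ⟪ι t, p - o⟫_ℝ / (-⟪n, p - o⟫_ℝ) * ⟪n, p - o⟫_ℝ = -⟪ι t, p - o⟫_ℝ := by
    rw [div_mul_eq_mul_div, div_eq_iff h3]; ring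
  rw [h4]; ring

theorem inner_lft (H : Hyp K o p n ι) (t x : Es d) : ⟪lft o p n ι t, ι x⟫_ℝ = ⟪t, x⟫_ℝ := by
  rw [lft, inner_add_left, real_inner_smul_left, H.perp, mul_zero, add_zero, ι.inner_map_map]

theorem pr_inner (H : Hyp K o p n ι) (v : Es (d + 1)) (x : Es d) :
    ⟪pr o p n v, ι x⟫_ℝ = ⟪v, ι x⟫_ℝ := by
  rw [pr, inner_sub_left, real_inner_smul_left, H.perp, mul_zero, sub_zero]

/-- **The step.** -/
theorem core (H : Hyp K o p n ι) (T : Finset (Es d)) {ρ : ℝ} (hρ : 0 < ρ) :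
    ∃ D : Finset (Es (d + 1)), D.card ≤ 2 * T.card ∧ ∀ v ∈ Pol K o,
      (∃ t ∈ T, ∀ x, o + ι x ∈ K → ⟪v, ι x⟫_ℝ - ⟪t, x⟫_ℝ ≤ 1 - ρ) →
        ∃ u ∈ D, v + u ∈ interior (Pol K o) := by
  classical
  obtain ⟨R, hR0, hR⟩ := exists_bound o H.comp
  obtain ⟨r, hr, hrK⟩ := exists_ball H.int
  have hPb := Pol.norm_le hr hrK
  obtain ⟨h, hh⟩ : ∃ h : ℝ, h = -⟪n, p - o⟫_ℝ := ⟨_, rfl⟩
  have hpos : 0 < h := by have := H.neg; linarith
  have hnp : ⟪n, p - o⟫_ℝ = -h := by rw [hh]; ring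
  set M : ℝ := ‖n‖ * R + 1 with hM
  have hM0 : 0 < M := by positivity
  have hN : ∀ y ∈ K, ⟪n, y - o⟫_ℝ ≤ M := by
    intro y hy
    refine (real_inner_le_norm _ _).trans ?_
    have : ‖n‖ * ‖y - o‖ ≤ ‖n‖ * R := by gcongr; exact hR y hy
    linarith
  set S : ℝ := (1 + 1 / r * ‖p - o‖) / h + 1 with hS
  have hS0 : 0 < S := by positivity
  have hSv : ∀ v ∈ Pol K o, ht o p n v ≤ S := by
    intro v hv
    rw [ht, ← hh, hS]
    have h1 : -⟪v, p - o⟫_ℝ ≤ 1 / r * ‖p - o‖ := by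
      rw [← inner_neg_left]
      refine (real_inner_le_norm _ _).trans ?_
      rw [norm_neg]
      gcongr
      exact hPb v hv
    have h2 : (1 - ⟪v, p - o⟫_ℝ) / h ≤ (1 + 1 / r * ‖p - o‖) / h := by gcongr; linarith
    linarith
  set s₀ : ℝ := ρ / (2 * M) with hs₀
  set ε : ℝ := ρ / (4 * M) with hε
  have hs₀0 : 0 < s₀ := by positivity
  have hε0 : 0 < ε := by positivity
  have hs₀M : s₀ * M = ρ / 2 := by rw [hs₀]; field_simp
  have hεM : ε * M = ρ / 4 := by rw [hε]; field_simp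
  set θ : ℝ := s₀ / 2 with hθ
  have hθ0 : 0 < θ := by positivity
  set η : ℝ := θ / (S + θ) with hη
  have hη0 : 0 < η := by positivity
  have hη1 : η < 1 := by rw [hη, div_lt_one (by positivity)]; linarith
  have hηS : η * S ≤ θ := by
    rw [hη, div_mul_eq_mul_div, div_le_iff₀ (by positivity)]
    nlinarith
  refine ⟨T.image (fun t => -lft o p n ι t + ε • n) ∪
    T.image (fun t => -(η • lft o p n ι t) - θ • n), ?_, ?_⟩
  · refine (Finset.card_union_le _ _).trans ?_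
    have h1 : (T.image (fun t => -lft o p n ι t + ε • n)).card ≤ T.card := Finset.card_image_le
    have h2 : (T.image (fun t => -(η • lft o p n ι t) - θ • n)).card ≤ T.card :=
      Finset.card_image_le
    omega
  rintro v hv ⟨t, ht', hst⟩
  have hs := ht_nonneg H hv
  have hsS := hSv v hv
  have hprK := pr_mem H hv
  obtain ⟨s, hsdef⟩ : ∃ s : ℝ, s = ht o p n v := ⟨_, rfl⟩
  rw [← hsdef] at hs hsS
  -- the vector `a`
  have hap : ⟪pr o p n v - lft o p n ι t, p - o⟫_ℝ = 1 := by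
    rw [inner_sub_left, inner_pr H, inner_lft_p H, sub_zero]
  have haH : ∀ y ∈ K, ⟪n, y - o⟫_ℝ = 0 → ⟪pr o p n v - lft o p n ι t, y - o⟫_ℝ ≤ 1 - ρ := by
    intro y hy h1
    obtain ⟨x, hx⟩ := exists_sec H h1
    rw [← hx, inner_sub_left, pr_inner H, inner_lft H]
    refine hst x ?_
    rw [hx]
    simpa using hy
  have hpos' := pos_side H hρ.le hap haH
  have hneg1 := neg_side H (b := pr o p n v - lft o p n ι t + (ρ / h) • n) (c := 1 - ρ)
    (by
      rw [inner_add_left, real_inner_smul_left, hap, hnp]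
      have : ρ / h * -h = -ρ := by field_simp
      linarith)
    (by
      intro y hy h1
      rw [inner_add_left, real_inner_smul_left, h1, mul_zero, add_zero]
      exact haH y hy h1)
  have hneg2 := neg_side H (b := -n) (c := h) (by rw [inner_neg_left, hnp]; linarith)
    (by intro y hy h1; rw [inner_neg_left, h1]; linarith)
  -- linear relations
  have hlin : ∀ y, ⟪pr o p n v - lft o p n ι t, y - o⟫_ℝ =
      ⟪v, y - o⟫_ℝ - s * ⟪n, y - o⟫_ℝ - ⟪lft o p n ι t, y - o⟫_ℝ := by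
    intro y
    rw [inner_sub_left, pr, inner_sub_left, real_inner_smul_left, hsdef]
  have hneg3 : ∀ y ∈ K, ⟪n, y - o⟫_ℝ ≤ 0 → ∃ l : ℝ, 0 ≤ l ∧ l ≤ 1 ∧ ⟪n, y - o⟫_ℝ = -(l * h) ∧
      ⟪pr o p n v - lft o p n ι t, y - o⟫_ℝ ≤ 1 - ρ + ρ * l := by
    intro y hy h1
    refine ⟨-⟪n, y - o⟫_ℝ / h, div_nonneg (by linarith) hpos.le, ?_, ?_, ?_⟩
    · rw [div_le_one hpos]
      have := hneg2 y hy h1
      rw [inner_neg_left] at this
      exact this
    · field_simp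
    · have h2 := hneg1 y hy h1
      rw [inner_add_left, real_inner_smul_left] at h2
      have h3 : ρ * (-⟪n, y - o⟫_ℝ / h) = -(ρ / h * ⟪n, y - o⟫_ℝ) := by field_simp
      rw [h3]; linarith
  rcases le_total s s₀ with hc | hc
  · -- near the facet
    refine ⟨-lft o p n ι t + ε • n, Finset.mem_union_left _ (Finset.mem_image_of_mem _ ht'), ?_⟩
    have hm0 : 0 < min ρ (ε * h) := lt_min hρ (by positivity)
    refine Pol.mem_interior hR0 hR (s := max (1 - ρ / 4) (1 - min ρ (ε * h)))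
      (max_lt (by linarith) (by linarith)) ?_
    intro y hy
    have e : ⟪v + (-lft o p n ι t + ε • n), y - o⟫_ℝ =
        ⟪pr o p n v - lft o p n ι t, y - o⟫_ℝ + (s + ε) * ⟪n, y - o⟫_ℝ := by
      rw [hlin, inner_add_left, inner_add_left, inner_neg_left, real_inner_smul_left]
      ring
    rw [e]
    rcases le_total 0 ⟪n, y - o⟫_ℝ with h1 | h1
    · refine le_trans ?_ (le_max_left _ _)
      have h2 := hpos' y hy h1
      have h3 := hN y hy
      have h4 : (s + ε) * ⟪n, y - o⟫_ℝ ≤ (s₀ + ε) * M := by gcongr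
      linarith
    · refine le_trans ?_ (le_max_right _ _)
      obtain ⟨l, hl0, hl1, h2, h3⟩ := hneg3 y hy h1
      rw [h2]
      have h4 : min ρ (ε * h) ≤ ρ := min_le_left _ _
      have h5 : min ρ (ε * h) ≤ ε * h := min_le_right _ _
      have h6 : min ρ (ε * h) * (1 - l) ≤ ρ * (1 - l) :=
        mul_le_mul_of_nonneg_right h4 (by linarith)
      have h7 : min ρ (ε * h) * l ≤ ε * h * l := by gcongr
      have h8 : 0 ≤ s * (l * h) := by positivity
      linarith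
  · -- far from the facet
    refine ⟨-(η • lft o p n ι t) - θ • n,
      Finset.mem_union_right _ (Finset.mem_image_of_mem (fun t => -(η • lft o p n ι t) - θ • n) ht'),
      ?_⟩
    have hm0 : 0 < min (η * ρ) (θ * h) := lt_min (by positivity) (by positivity)
    have hηs : η * s ≤ θ := le_trans (by gcongr) hηS
    refine Pol.mem_interior hR0 hR (s := max (1 - η * ρ) (1 - min (η * ρ) (θ * h)))
      (max_lt (by nlinarith [mul_pos hη0 hρ]) (by linarith)) ?_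
    intro y hy
    have e : ⟪v + (-(η • lft o p n ι t) - θ • n), y - o⟫_ℝ =
        ⟪v, y - o⟫_ℝ - η * ⟪lft o p n ι t, y - o⟫_ℝ - θ * ⟪n, y - o⟫_ℝ := by
      rw [inner_add_left, inner_sub_left, inner_neg_left, real_inner_smul_left,
        real_inner_smul_left]
      ring
    have hL := hlin y
    rw [e]
    rcases le_total 0 ⟪n, y - o⟫_ℝ with h1 | h1
    · refine le_trans ?_ (le_max_left _ _)
      have h2 := hpos' y hy h1
      have h3 := hv y hy
      obtain ⟨A, hA⟩ : ∃ A : ℝ, A = ⟪pr o p n v - lft o p n ι t, y - o⟫_ℝ := ⟨_, rfl⟩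
      have h4 : ⟪lft o p n ι t, y - o⟫_ℝ = ⟪v, y - o⟫_ℝ - s * ⟪n, y - o⟫_ℝ - A := by
        rw [hA, hL]; ring
      rw [h4]
      rw [← hA] at h2
      have h5 : (1 - η) * ⟪v, y - o⟫_ℝ ≤ (1 - η) * 1 :=
        mul_le_mul_of_nonneg_left h3 (by linarith)
      have h6 : η * A ≤ η * (1 - ρ) := by gcongr
      have h7 : (η * s) * ⟪n, y - o⟫_ℝ ≤ θ * ⟪n, y - o⟫_ℝ := by gcongr
      linarith
    · refine le_trans ?_ (le_max_right _ _)
      obtain ⟨l, hl0, hl1, h2, h3⟩ := hneg3 y hy h1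
      obtain ⟨A, hA⟩ : ∃ A : ℝ, A = ⟪pr o p n v - lft o p n ι t, y - o⟫_ℝ := ⟨_, rfl⟩
      have h4 : ⟪lft o p n ι t, y - o⟫_ℝ = ⟪v, y - o⟫_ℝ - s * ⟪n, y - o⟫_ℝ - A := by
        rw [hA, hL]; ring
      have h5 : ⟪v, y - o⟫_ℝ - s * ⟪n, y - o⟫_ℝ ≤ 1 := by
        have := hprK y hy
        rw [pr, inner_sub_left, real_inner_smul_left, ← hsdef] at this
        exact this
      rw [h4]
      rw [← hA] at h3
      have h6 : (1 - η) * (⟪v, y - o⟫_ℝ - s * ⟪n, y - o⟫_ℝ) ≤ (1 - η) * 1 :=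
        mul_le_mul_of_nonneg_left h5 (by linarith)
      have h7 : η * A ≤ η * (1 - ρ + ρ * l) := by gcongr
      have h8 : min (η * ρ) (θ * h) * (1 - l) ≤ η * ρ * (1 - l) :=
        mul_le_mul_of_nonneg_right (min_le_left _ _) (by linarith)
      have h9 : min (η * ρ) (θ * h) * l ≤ θ * h * l :=
        mul_le_mul_of_nonneg_right (min_le_right _ _) hl0
      have h10 : θ * (l * h) ≤ (s - θ) * (l * h) := by
        refine mul_le_mul_of_nonneg_right ?_ (by positivity)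
        rw [hθ]; linarith
      rw [h2] at h6 ⊢
      linarith

end Pool.Agent.Q139.Cone
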