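import Pool.Agent.Q139.Cone.Star
import Pool.Agent.TH438.Hull.Equality
import Pool.Agent.W677.Shadow

set_option autoImplicit false
set_option maxHeartbeats 1000000

/-!
Convex bodies which have an edge along their section by a hyperplane through `o`: the fibres of the
projection of the polar body are nondegenerate segments.
-/

open Set Topology Module
open scoped InnerProductSpace
open Pool.Agent.H843R3.Had2
open Pool.Agent.TH438.Hull

namespace Pool.Agent.Q139.Edge

open Pool.Agent.Q139.Cone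

structure Bd {d : ℕ} (K : Set (Es (d + 1))) (o n : Es (d + 1)) (ι : Es d →ₗᵢ[ℝ] Es (d + 1)) :
    Prop where
  conv : Convex ℝ K
  comp : IsCompact K
  int : o ∈ interior K
  perp : ∀ x, ⟪n, ι x⟫_ℝ = 0
  ne : n ≠ 0

variable {d : ℕ} {K : Set (Es (d + 1))} {o n : Es (d + 1)} {ι : Es d →ₗᵢ[ℝ] Es (d + 1)}

theorem Bd.neg (H : Bd K o n ι) : Bd K o (-n) ι :=
  ⟨H.conv, H.comp, H.int, fun x => by rw [inner_neg_left, H.perp, neg_zero], neg_ne_zero.2 H.ne⟩

theorem perp_span (H : Bd K o n ι) {b : Es (d + 1)} (hb : ∀ x, ⟪b, ι x⟫_ℝ = 0) :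
    ∃ c : ℝ, b = c • n := by
  have hn := H.ne
  set R := LinearMap.range ι.toLinearMap with hR
  have h1 : finrank ℝ R = d := by
    rw [hR, LinearMap.finrank_range_of_inj ι.injective]; simp
  have h2 : finrank ℝ Rᗮ = 1 := by
    have := R.finrank_add_finrank_orthogonal
    rw [h1] at this
    simp at this
    omega
  have hnR : n ∈ Rᗮ := by
    rw [Submodule.mem_orthogonal']
    rintro _ ⟨x, rfl⟩
    exact H.perp x
  have hbR : b ∈ Rᗮ := by
    rw [Submodule.mem_orthogonal']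
    rintro _ ⟨x, rfl⟩
    exact hb x
  obtain ⟨c, hc⟩ := (finrank_eq_one_iff_of_nonzero' (⟨n, hnR⟩ : Rᗮ)
    (by intro h; exact hn (congrArg Subtype.val h))).1 h2 ⟨b, hbR⟩
  exact ⟨c, (congrArg Subtype.val hc).symm⟩

/-- the height -/
noncomputable def hg (n v : Es (d + 1)) : ℝ := ⟪n, v⟫_ℝ / ⟪n, n⟫_ℝ

theorem nn_pos (H : Bd K o n ι) : 0 < ⟪n, n⟫_ℝ := real_inner_self_pos.2 H.ne

theorem hg_continuous (n : Es (d + 1)) : Continuous (hg n) := by
  unfold hg
  fun_prop

theorem hg_neg (n v : Es (d + 1)) : hg (-n) v = -hg n v := by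
  rw [hg, hg, inner_neg_left, inner_neg_neg, neg_div]

theorem hg_smul (n v : Es (d + 1)) (c : ℝ) : hg n (c • v) = c * hg n v := by
  rw [hg, hg, real_inner_smul_right]; ring

theorem hg_sum (n : Es (d + 1)) {α : Type*} (s : Finset α) (f : α → Es (d + 1)) :
    hg n (∑ i ∈ s, f i) = ∑ i ∈ s, hg n (f i) := by
  simp only [hg]
  rw [inner_sum, Finset.sum_div]

theorem same (H : Bd K o n ι) {v v' : Es (d + 1)} (h : rs ι v = rs ι v') :
    v = v' + (hg n v - hg n v') • n := by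
  obtain ⟨c, hc⟩ := perp_span H (b := v - v') (fun x => by
    rw [← inner_rs, map_sub, h, sub_self, inner_zero_left])
  have h1 : hg n v - hg n v' = c := by
    have h2 : hg n v - hg n v' = ⟪n, v - v'⟫_ℝ / ⟪n, n⟫_ℝ := by
      rw [hg, hg, inner_sub_right]; ring
    rw [h2, hc, real_inner_smul_right, mul_div_assoc, div_self (nn_pos H).ne', mul_one]
  rw [h1, ← hc]; abel

theorem rs_ι (x : Es d) : rs ι (ι x) = x := by
  refine ext_inner_right ℝ fun y => ?_
  rw [inner_rs, ι.inner_map_map]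

/-- the projection of the polar body is the polar of the section -/
theorem rs_surj (H : Bd K o n ι) : rs ι '' Pol K o = Pol (sec K o ι) 0 := by
  refine Subset.antisymm ?_ ?_
  · rintro _ ⟨v, hv, rfl⟩
    exact rs_mem hv
  intro w hw
  by_contra hcon
  have hPc : IsCompact (Pol K o) := Pol.isCompact H.int
  have h1 : Convex ℝ (rs ι '' Pol K o) := (Pol.convex K o).linear_image (rs ι).toLinearMap
  have h2 : IsClosed (rs ι '' Pol K o) := (hPc.image (rs ι).continuous).isClosed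
  obtain ⟨f, u, hf1, hf2⟩ := geometric_hahn_banach_closed_point h1 h2 hcon
  have hin : ∀ q, ⟪(InnerProductSpace.toDual ℝ (Es d)).symm f, q⟫_ℝ = f q := fun q =>
    InnerProductSpace.toDual_symm_apply
  set z := (InnerProductSpace.toDual ℝ (Es d)).symm f with hz
  have hu : 0 < u := by
    have := hf1 0 ⟨0, interior_subset (Pol.zero_mem_interior H.comp), map_zero _⟩
    rwa [map_zero] at this
  have h3 : u⁻¹ • ι z ∈ Pol (Pol K o) 0 := by
    intro v hv
    rw [sub_zero, real_inner_smul_left, inv_mul_le_iff₀ hu, mul_one, real_inner_comm, ← inner_rs,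
      real_inner_comm, hin]
    exact (hf1 _ ⟨v, hv, rfl⟩).le
  rw [bipolar H.conv H.comp.isClosed (interior_subset H.int)] at h3
  have h4 : u⁻¹ • z ∈ sec K o ι := by
    show o + ι (u⁻¹ • z) ∈ K
    rw [map_smul]; exact h3
  have h5 := hw _ h4
  rw [sub_zero, real_inner_smul_right, inv_mul_le_iff₀ hu, mul_one, real_inner_comm, hin] at h5
  linarith

theorem down (H : Bd K o n ι) {v v' v₁ : Es (d + 1)} (hv' : v' ∈ Pol K o)
    (h' : rs ι v' = rs ι v) (hlt : hg n v' < hg n v) (hv₁ : v₁ ∈ interior (Pol K o)) {Θ : ℝ}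
    (hΘ : hg n v < Θ + hg n v₁) : Co (Pol K o) v (ι (rs ι v₁ - rs ι v) - Θ • n) := by
  obtain ⟨a, ha⟩ : ∃ a, a = hg n v - hg n v' := ⟨_, rfl⟩
  obtain ⟨Δ, hΔ⟩ : ∃ Δ, Δ = hg n v₁ - hg n v := ⟨_, rfl⟩
  have ha0 : 0 < a := by linarith
  have hΘΔ : 0 < Θ + Δ := by linarith
  have e1 : v' = v - a • n := by
    rw [same H h', ha]; module
  have e2 : v₁ = v + ι (rs ι v₁ - rs ι v) + Δ • n := by
    have h1 : rs ι v₁ = rs ι (v + ι (rs ι v₁ - rs ι v)) := by
      rw [map_add, rs_ι]; abel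
    have h2 := same H h1
    have h3 : hg n (v + ι (rs ι v₁ - rs ι v)) = hg n v := by
      rw [hg, hg, inner_add_right, H.perp, add_zero]
    rw [h3, ← hΔ] at h2
    exact h2
  refine ⟨a / (a + (Θ + Δ)), by positivity, ?_⟩
  have e3 : v + (a / (a + (Θ + Δ))) • (ι (rs ι v₁ - rs ι v) - Θ • n) =
      ((Θ + Δ) / (a + (Θ + Δ))) • v' + (a / (a + (Θ + Δ))) • v₁ := by
    obtain ⟨τ, hτ⟩ : ∃ τ, τ = ι (rs ι v₁ - rs ι v) := ⟨_, rfl⟩
    rw [← hτ] at e2 ⊢
    have h4 : (Θ + Δ) / (a + (Θ + Δ)) = 1 - a / (a + (Θ + Δ)) := by field_simp; ring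
    have h5 : ((Θ + Δ) / (a + (Θ + Δ))) * a = (a / (a + (Θ + Δ))) * (Θ + Δ) := by ring
    rw [e1, e2, smul_sub ((Θ + Δ) / (a + (Θ + Δ))), smul_smul, h5, h4]
    module
  rw [e3]
  exact (Pol.convex K o).combo_self_interior_mem_interior hv' hv₁ (by positivity) (by positivity)
    (by field_simp; ring)

theorem up (H : Bd K o n ι) {v v' v₁ : Es (d + 1)} (hv' : v' ∈ Pol K o)
    (h' : rs ι v' = rs ι v) (hlt : hg n v < hg n v') (hv₁ : v₁ ∈ interior (Pol K o)) {Θ : ℝ}
    (hΘ : hg n v₁ < Θ + hg n v) : Co (Pol K o) v (ι (rs ι v₁ - rs ι v) + Θ • n) := by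
  have h := down H.neg (v := v) (v' := v') (v₁ := v₁) (Θ := Θ) hv' h'
    (by rw [hg_neg, hg_neg]; linarith) hv₁ (by rw [hg_neg, hg_neg]; linarith)
  rwa [smul_neg, sub_neg_eq_add] at h

theorem hg_bound (H : Bd K o n ι) : ∃ M : ℝ, ∀ v ∈ Pol K o, |hg n v| ≤ M := by
  obtain ⟨M, hM⟩ := (Pol.isCompact (K := K) (o := o) H.int).exists_bound_of_continuousOn
    (hg_continuous n).continuousOn
  exact ⟨M, fun v hv => by simpa using hM v hv⟩

/-- directions for the points in nondegenerate fibres -/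
theorem dirs_T (H : Bd K o n ι) (T : Finset (Es d)) : ∃ D : Finset (Es (d + 1)),
    D.card ≤ 2 * T.card ∧ ∀ v ∈ Pol K o, (∃ v' ∈ Pol K o, v' ≠ v ∧ rs ι v' = rs ι v) →
      (∃ t ∈ T, rs ι v + t ∈ interior (Pol (sec K o ι) 0)) → ∃ u ∈ D, Co (Pol K o) v u := by
  classical
  obtain ⟨M, hM⟩ := hg_bound H
  have hP0 : (0 : Es (d + 1)) ∈ interior (Pol K o) := Pol.zero_mem_interior H.comp
  refine ⟨T.image (fun t => ι t - (2 * M + 1) • n) ∪ T.image (fun t => ι t + (2 * M + 1) • n),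
    ?_, ?_⟩
  · refine (Finset.card_union_le _ _).trans ?_
    have h1 : (T.image (fun t => ι t - (2 * M + 1) • n)).card ≤ T.card := Finset.card_image_le
    have h2 : (T.image (fun t => ι t + (2 * M + 1) • n)).card ≤ T.card := Finset.card_image_le
    omega
  rintro v hv ⟨v', hv', hne, h'⟩ ⟨t, ht, hint⟩
  rw [← rs_surj H] at hint
  obtain ⟨v₁, hv₁, h1⟩ := Pool.Agent.W677.Shadow.lift_int (Pol.convex K o) hP0 (rs ι) hint
  have h2 : rs ι v₁ - rs ι v = t := by rw [h1]; abel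
  have hb := abs_le.1 (hM v hv)
  have hb1 := abs_le.1 (hM v₁ (interior_subset hv₁))
  have hne' : hg n v' ≠ hg n v := by
    intro h3
    apply hne
    rw [same H h', h3, sub_self, zero_smul, add_zero]
  rcases lt_or_gt_of_ne hne' with h3 | h3
  · refine ⟨ι t - (2 * M + 1) • n, Finset.mem_union_left _
      (Finset.mem_image_of_mem (fun t => ι t - (2 * M + 1) • n) ht), ?_⟩
    have := down H hv' h' h3 hv₁ (Θ := 2 * M + 1) (by linarith)
    rwa [h2] at this
  · refine ⟨ι t + (2 * M + 1) • n, Finset.mem_union_right _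
      (Finset.mem_image_of_mem (fun t => ι t + (2 * M + 1) • n) ht), ?_⟩
    have := up H hv' h' h3 hv₁ (Θ := 2 * M + 1) (by linarith)
    rwa [h2] at this

/-- **The bound.** -/
theorem dirs_edge (H : Bd K o n ι) (W : Finset (Es d))
    (hW : ∀ y ∈ Pol (sec K o ι) 0, ∃ w ∈ W, Co (Pol (sec K o ι) 0) y w) (X : Finset (Es d))
    (hX : ∀ w ∈ Pol (sec K o ι) 0, w ∉ X → ∃ v ∈ Pol K o, ∃ v' ∈ Pol K o, v ≠ v' ∧
      rs ι v = w ∧ rs ι v' = w) :
    ∃ D : Finset (Es (d + 1)), D.card ≤ 2 * W.card + X.card ∧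
      ∀ v ∈ Pol K o, ∃ u ∈ D, Co (Pol K o) v u := by
  classical
  have hP0 : (0 : Es (d + 1)) ∈ interior (Pol K o) := Pol.zero_mem_interior H.comp
  have hQ : Convex ℝ (Pol (sec K o ι) 0) := Pol.convex _ _
  have hQc : IsCompact (Pol (sec K o ι) 0) := Pol.isCompact (sec_int H.int)
  obtain ⟨r, hr, hr1⟩ := unif hQ hQc subset_rfl (fun w : W => (w : Es d)) (by
    intro x hx
    obtain ⟨v, hv, h1⟩ := hW x hx
    exact ⟨⟨v, hv⟩, h1⟩)
  obtain ⟨D, hD, hD1⟩ := dirs_T H (W.image (fun w => r • w))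
  have hV : ∀ w ∈ Pol (sec K o ι) 0, ∃ v, v ∈ Pol K o ∧ rs ι v = w := by
    intro w hw
    rw [← rs_surj H] at hw
    exact hw
  choose! V hV1 hV2 using hV
  refine ⟨D ∪ X.image (fun w => -V w), ?_, ?_⟩
  · refine (Finset.card_union_le _ _).trans ?_
    have h1 : (W.image (fun w => r • w)).card ≤ W.card := Finset.card_image_le
    have h2 : (X.image (fun w => -V w)).card ≤ X.card := Finset.card_image_le
    omega
  intro v hv
  by_cases hfib : ∃ v' ∈ Pol K o, v' ≠ v ∧ rs ι v' = rs ι v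
  · obtain ⟨⟨w, hw⟩, h1⟩ := hr1 (rs ι v) (rs_mem hv)
    obtain ⟨u, hu, h2⟩ := hD1 v hv hfib ⟨r • w, Finset.mem_image_of_mem _ hw, h1⟩
    exact ⟨u, Finset.mem_union_left _ hu, h2⟩
  · push Not at hfib
    have h1 : rs ι v ∈ X := by
      by_contra hvX
      obtain ⟨a, ha, b, hb, hab, h2, h3⟩ := hX _ (rs_mem hv) hvX
      have h4 : a = v := by
        by_contra h; exact hfib a ha h h2
      have h5 : b = v := by
        by_contra h; exact hfib b hb h h3
      exact hab (h4.trans h5.symm)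
    have h2 : V (rs ι v) = v := by
      by_contra h
      exact hfib _ (hV1 _ (rs_mem hv)) h (hV2 _ (rs_mem hv))
    refine ⟨-V (rs ι v), Finset.mem_union_right _
      (Finset.mem_image_of_mem (fun w => -V w) h1), 1, one_pos, ?_⟩
    rw [h2, one_smul, add_neg_cancel]
    exact hP0

/-- over each of the points `e` the fibre has maximal length -/
theorem full (H : Bd K o n ι) (hE : ∀ w ∈ Pol (sec K o ι) 0, ∃ v ∈ Pol K o, ∃ v' ∈ Pol K o,
      v ≠ v' ∧ rs ι v = w ∧ rs ι v' = w) (Z : Finset (Es d))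
    (hZ : Pol (sec K o ι) 0 = convexHull ℝ (Z : Set (Es d)))
    (hno : ¬ ∃ D : Finset (Es (d + 1)), D.card ≤ 2 * Z.card - 1 ∧
      ∀ v ∈ Pol K o, ∃ u ∈ D, Co (Pol K o) v u)
    {S : ℝ} {a b : Es (d + 1)} (ha : a ∈ Pol K o) (hb : b ∈ Pol K o) (hab : rs ι a = rs ι b)
    (hS : hg n a - hg n b = S)
    (hmax : ∀ v ∈ Pol K o, ∀ v' ∈ Pol K o, rs ι v = rs ι v' → hg n v - hg n v' ≤ S)
    {e : Es d} (he : e ∈ Z) : ∃ v : Es (d + 1), v ∈ Pol K o ∧ v + S • n ∈ Pol K o ∧
      rs ι v = e := by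
  classical
  have hPc : IsCompact (Pol K o) := Pol.isCompact H.int
  have hP := Pol.convex K o
  have hP0 : (0 : Es (d + 1)) ∈ interior (Pol K o) := Pol.zero_mem_interior H.comp
  have heQ : ∀ y ∈ Z, y ∈ Pol (sec K o ι) 0 := fun y hy => by
    rw [hZ]; exact subset_convexHull ℝ _ hy
  -- the lowest and the highest point over `e`
  obtain ⟨v₁, hv₁, _, _, _, hv₁e, _⟩ := hE e (heQ e he)
  have hFc : IsCompact (Pol K o ∩ {v | rs ι v = e}) :=
    hPc.inter_right (isClosed_eq (rs ι).continuous continuous_const)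
  obtain ⟨ae, ⟨hae, hae'⟩, hamax⟩ := hFc.exists_isMaxOn ⟨v₁, hv₁, hv₁e⟩
    (f := hg n) (hg_continuous n).continuousOn
  obtain ⟨be, ⟨hbe, hbe'⟩, hbmin⟩ := hFc.exists_isMinOn ⟨v₁, hv₁, hv₁e⟩
    (f := hg n) (hg_continuous n).continuousOn
  have hae' : rs ι ae = e := hae'
  have hbe' : rs ι be = e := hbe'
  obtain ⟨s, hs⟩ : ∃ s, s = hg n ae - hg n be := ⟨_, rfl⟩
  have hs0 : 0 ≤ s := by
    have : hg n be ≤ hg n ae := hbmin ⟨hae, hae'⟩
    linarith
  have hsS : s ≤ S := by rw [hs]; exact hmax ae hae be hbe (hae'.trans hbe'.symm)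
  rcases hsS.eq_or_lt with h0 | hlt
  · refine ⟨be, hbe, ?_, hbe'⟩
    have h1 := same H (v := ae) (v' := be) (hae'.trans hbe'.symm)
    rw [← hs, h0] at h1
    rw [← h1]; exact hae
  exfalso
  apply hno
  have hS0 : 0 < S := lt_of_le_of_lt hs0 hlt
  set θ : ℝ := (S - s) / (2 * S) with hθ
  have hθ0 : 0 < θ := div_pos (by linarith) (by positivity)
  have hθ1 : θ < 1 := by rw [hθ, div_lt_one (by positivity)]; linarith
  have hθS : θ * S = (S - s) / 2 := by rw [hθ]; field_simp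
  have hz : ∀ v ∈ Pol K o, (1 - θ) • v ∈ interior (Pol K o) := by
    intro v hv
    have := hP.combo_self_interior_mem_interior hv hP0 (a := 1 - θ) (b := θ)
      (by linarith) hθ0 (by ring)
    rwa [smul_zero, add_zero] at this
  obtain ⟨l, hl⟩ : ∃ l, l = (1 - θ) * S := ⟨_, rfl⟩
  have hls : s < l := by
    have : (1 - θ) * S = S - θ * S := by ring
    rw [hl, this, hθS]; linarith
  have hab' : (1 - θ) • a = (1 - θ) • b + l • n := by
    conv_lhs => rw [same H hab, hS]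
    rw [smul_add, smul_smul, hl]
  set g : Es (d + 1) := (1 - θ) • b - be with hg'
  have hfib : ∀ v ∈ Pol K o, rs ι v = e → v + g ∈ interior (Pol K o) := by
    intro v hv hve2
    have h1 := same H (v := v) (v' := be) (hve2.trans hbe'.symm)
    have h2 : hg n v ≤ hg n ae := hamax ⟨hv, hve2⟩
    have h3 : hg n be ≤ hg n v := hbmin ⟨hv, hve2⟩
    obtain ⟨c, hc⟩ : ∃ c, c = hg n v - hg n be := ⟨_, rfl⟩
    rw [← hc] at h1
    have hl0 : 0 < l := by linarith
    have h4 : v + g = (1 - c / l) • ((1 - θ) • b) + (c / l) • ((1 - θ) • a) := by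
      rw [hab', smul_add (c / l), smul_smul (c / l) l, div_mul_cancel₀ _ hl0.ne']
      conv_lhs => rw [h1]
      rw [hg']; module
    rw [h4]
    exact hP.interior (hz b hb) (hz a ha) (by rw [sub_nonneg, div_le_one hl0]; linarith)
      (div_nonneg (by linarith) hl0.le) (by ring)
  -- the points far from the fibre
  obtain ⟨δ, hδ, hfar⟩ : ∃ δ : ℝ, 0 < δ ∧ ∀ v ∈ Pol K o, v + g ∉ interior (Pol K o) →
      δ ≤ ‖rs ι v - e‖ := by
    have hCc : IsCompact (Pol K o ∩ {v | v + g ∉ interior (Pol K o)}) := by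
      refine hPc.inter_right ?_
      have : IsOpen {v | v + g ∈ interior (Pol K o)} :=
        isOpen_interior.preimage (continuous_id.add continuous_const)
      exact this.isClosed_compl
    rcases (Pol K o ∩ {v | v + g ∉ interior (Pol K o)}).eq_empty_or_nonempty with h0 | h0
    · refine ⟨1, one_pos, fun v hv hvg => ?_⟩
      have : v ∈ Pol K o ∩ {v | v + g ∉ interior (Pol K o)} := ⟨hv, hvg⟩
      rw [h0] at this
      exact absurd this (notMem_empty v)
    · obtain ⟨v₂, ⟨h1, h2⟩, h3⟩ := hCc.exists_isMinOn h0 (f := fun v => ‖rs ι v - e‖)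
        (by fun_prop)
      refine ⟨‖rs ι v₂ - e‖, norm_pos_iff.2 fun h4 => h2 (hfib v₂ h1 (sub_eq_zero.1 h4)),
        fun v hv hvg => h3 ⟨hv, hvg⟩⟩
  -- the directions
  set M : ℝ := ∑ y ∈ Z, ‖y - e‖ + 1 with hM
  have hM0 : 0 < M := by
    have : 0 ≤ ∑ y ∈ Z, ‖y - e‖ := Finset.sum_nonneg fun _ _ => norm_nonneg _
    linarith
  have hMy : ∀ y ∈ Z, ‖y - e‖ ≤ M := by
    intro y hy
    have : ‖y - e‖ ≤ ∑ y ∈ Z, ‖y - e‖ :=
      Finset.single_le_sum (f := fun y => ‖y - e‖) (fun _ _ => norm_nonneg _) hy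
    linarith
  have hZ0 : 0 < (Z.card : ℝ) := by
    exact_mod_cast Finset.card_pos.2 ⟨e, he⟩
  set κ : ℝ := min (δ / (2 * Z.card * M)) (1 / 2) with hκ
  have hκ0 : 0 < κ := lt_min (by positivity) (by norm_num)
  have hκ1 : κ ≤ 1 / 2 := min_le_right _ _
  have hκ2 : κ ≤ δ / (2 * Z.card * M) := min_le_left _ _
  obtain ⟨D, hD, hD1⟩ := dirs_T H ((Z.erase e).image (fun y => -(κ • y)))
  refine ⟨insert g D, ?_, ?_⟩
  · have h1 := Finset.card_insert_le g D
    have h2 : ((Z.erase e).image (fun y => -(κ • y))).card ≤ (Z.erase e).card :=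
      Finset.card_image_le
    rw [Finset.card_erase_of_mem he] at h2
    have h3 : 0 < Z.card := Finset.card_pos.2 ⟨e, he⟩
    omega
  intro v hv
  by_cases hvg : v + g ∈ interior (Pol K o)
  · exact ⟨g, Finset.mem_insert_self _ _, 1, one_pos, by rwa [one_smul]⟩
  have hfar' := hfar v hv hvg
  have hw := rs_mem (ι := ι) hv
  rw [hZ, Finset.mem_convexHull'] at hw
  obtain ⟨m, hm0, hm1, hmw⟩ := hw
  -- a large weight
  obtain ⟨y, hy, hly⟩ : ∃ y ∈ Z.erase e, κ ≤ m y := by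
    by_contra hsmall
    push Not at hsmall
    have h1 : rs ι v - e = ∑ y ∈ Z.erase e, m y • (y - e) := by
      have h2 : ∑ y ∈ Z, m y • (y - e) = rs ι v - e := by
        simp only [smul_sub]
        rw [Finset.sum_sub_distrib, hmw, ← Finset.sum_smul, hm1, one_smul]
      rw [← h2, ← Finset.add_sum_erase _ _ he, sub_self, smul_zero, zero_add]
    have h3 : ‖rs ι v - e‖ ≤ ∑ y ∈ Z.erase e, κ * M := by
      rw [h1]
      refine (norm_sum_le _ _).trans (Finset.sum_le_sum fun y hy => ?_)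
      have hyZ := Finset.mem_of_mem_erase hy
      rw [norm_smul, Real.norm_eq_abs, abs_of_nonneg (hm0 y hyZ)]
      exact mul_le_mul (hsmall y hy).le (hMy y hyZ) (norm_nonneg _) hκ0.le
    rw [Finset.sum_const, nsmul_eq_mul] at h3
    have h4 : ((Z.erase e).card : ℝ) ≤ Z.card := by
      exact_mod_cast Finset.card_le_card (Finset.erase_subset _ _)
    have h5 : ((Z.erase e).card : ℝ) * (κ * M) ≤ Z.card * (κ * M) :=
      mul_le_mul_of_nonneg_right h4 (mul_nonneg hκ0.le hM0.le)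
    have h6 : (Z.card : ℝ) * (κ * M) ≤ Z.card * (δ / (2 * Z.card * M) * M) := by
      refine mul_le_mul_of_nonneg_left (mul_le_mul_of_nonneg_right hκ2 hM0.le) hZ0.le
    have h7 : (Z.card : ℝ) * (δ / (2 * Z.card * M) * M) = δ / 2 := by field_simp
    linarith
  have hyZ := Finset.mem_of_mem_erase hy
  obtain ⟨p, hp, q, hq, hpq, h1, h2⟩ := hE (rs ι v) (rs_mem hv)
  have hne : ∃ v' ∈ Pol K o, v' ≠ v ∧ rs ι v' = rs ι v := by
    by_cases h3 : p = v
    · exact ⟨q, hq, fun h => hpq (h3.trans h.symm), h2⟩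
    · exact ⟨p, hp, h3, h1⟩
  suffices hint : rs ι v + -(κ • y) ∈ interior (Pol (sec K o ι) 0) by
    obtain ⟨u, hu, h3⟩ := hD1 v hv hne ⟨-(κ • y), Finset.mem_image_of_mem _ hy, hint⟩
    exact ⟨u, Finset.mem_insert_of_mem hu, h3⟩
  -- the point is in `(1 - κ) Q`
  have hκ3 : 0 < 1 - κ := by linarith
  have h3 : (1 - κ)⁻¹ • (rs ι v + -(κ • y)) ∈ Pol (sec K o ι) 0 := by
    rw [hZ, Finset.mem_convexHull']
    refine ⟨fun y' => (1 - κ)⁻¹ * (m y' - if y' = y then κ else 0), fun y' hy' => ?_, ?_, ?_⟩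
    · refine mul_nonneg (inv_nonneg.2 hκ3.le) ?_
      split_ifs with h5
      · rw [h5]; linarith
      · have := hm0 y' hy'; linarith
    · rw [← Finset.mul_sum, Finset.sum_sub_distrib, hm1, Finset.sum_ite_eq' Z y, if_pos hyZ]
      exact inv_mul_cancel₀ hκ3.ne'
    · have h5 : ∑ y' ∈ Z, ((1 - κ)⁻¹ * (m y' - if y' = y then κ else 0)) • y' =
          (1 - κ)⁻¹ • (∑ y' ∈ Z, m y' • y' - ∑ y' ∈ Z, (if y' = y then κ else 0) • y') := by
        rw [← Finset.sum_sub_distrib, Finset.smul_sum]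
        refine Finset.sum_congr rfl fun y' _ => ?_
        rw [mul_smul, sub_smul]
      rw [h5, hmw]
      have h6 : ∑ y' ∈ Z, (if y' = y then κ else 0) • y' = κ • y := by
        simp only [ite_smul, zero_smul]
        rw [Finset.sum_ite_eq' Z y, if_pos hyZ]
      rw [h6, sub_eq_add_neg (rs ι v)]
  have h4 : (0 : Es d) ∈ interior (Pol (sec K o ι) 0) :=
    Pol.zero_mem_interior (sec_compact H.comp)
  have h5 := (Pol.convex (sec K o ι) 0).combo_self_interior_mem_interior h3 h4 (a := 1 - κ)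
    (b := κ) hκ3.le hκ0 (by ring)
  rwa [smul_smul, mul_inv_cancel₀ hκ3.ne', one_smul, smul_zero, add_zero] at h5

/-- **The equality step.** -/
theorem eq_edge (H : Bd K o n ι) (hE : ∀ w ∈ Pol (sec K o ι) 0, ∃ v ∈ Pol K o, ∃ v' ∈ Pol K o,
      v ≠ v' ∧ rs ι v = w ∧ rs ι v' = w) (Z : Finset (Es d))
    (hZ : Pol (sec K o ι) 0 = convexHull ℝ (Z : Set (Es d)))
    (hno : ¬ ∃ D : Finset (Es (d + 1)), D.card ≤ 2 * Z.card - 1 ∧
      ∀ v ∈ Pol K o, ∃ u ∈ D, Co (Pol K o) v u) :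
    ∃ X : Finset (Es (d + 1)), X.card ≤ 2 * Z.card ∧ (Pol K o).extremePoints ℝ ⊆ X := by
  classical
  have hPc : IsCompact (Pol K o) := Pol.isCompact H.int
  have hP0 : (0 : Es (d + 1)) ∈ Pol K o := interior_subset (Pol.zero_mem_interior H.comp)
  obtain ⟨S, a, b, ha, hb, hab, hS, hmax⟩ : ∃ (S : ℝ) (a b : Es (d + 1)), a ∈ Pol K o ∧
      b ∈ Pol K o ∧ rs ι a = rs ι b ∧ hg n a - hg n b = S ∧
      ∀ v ∈ Pol K o, ∀ v' ∈ Pol K o, rs ι v = rs ι v' → hg n v - hg n v' ≤ S := by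
    have hc : IsCompact ((Pol K o ×ˢ Pol K o) ∩
        {q : Es (d + 1) × Es (d + 1) | rs ι q.1 = rs ι q.2}) :=
      (hPc.prod hPc).inter_right (isClosed_eq (by fun_prop) (by fun_prop))
    obtain ⟨q, ⟨hq1, hq2⟩, hq3⟩ := hc.exists_isMaxOn ⟨(0, 0), ⟨hP0, hP0⟩, rfl⟩
      (f := fun q => hg n q.1 - hg n q.2)
      (((hg_continuous n).comp continuous_fst).sub
        ((hg_continuous n).comp continuous_snd)).continuousOn
    exact ⟨_, q.1, q.2, hq1.1, hq1.2, hq2, rfl, fun v hv v' hv' h => hq3 (a := (v, v'))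
      ⟨⟨hv, hv'⟩, h⟩⟩
  have htop : ∀ e ∈ Z, ∃ v : Es (d + 1), v ∈ Pol K o ∧ v + S • n ∈ Pol K o ∧ rs ι v = e :=
    fun e he => full H hE Z hZ hno ha hb hab hS hmax he
  choose! V hV1 hV2 hV3 using htop
  have hS0 : 0 ≤ S := by
    have := hmax 0 hP0 0 hP0 rfl
    linarith
  set X : Finset (Es (d + 1)) := Z.image V ∪ Z.image (fun e => V e + S • n) with hX
  have hXP : (X : Set (Es (d + 1))) ⊆ Pol K o := by
    intro x hx
    rw [hX, Finset.coe_union, Finset.coe_image, Finset.coe_image] at hx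
    rcases hx with ⟨e, he, rfl⟩ | ⟨e, he, rfl⟩
    · exact hV1 e he
    · exact hV2 e he
  have hrn : rs ι n = 0 := by
    refine ext_inner_right ℝ fun x => ?_
    rw [inner_rs, H.perp, inner_zero_left]
  have hPX : Pol K o ⊆ convexHull ℝ (X : Set (Es (d + 1))) := by
    intro v hv
    have hw := rs_mem (ι := ι) hv
    rw [hZ, Finset.mem_convexHull'] at hw
    obtain ⟨l, hl0, hl1, hlw⟩ := hw
    obtain ⟨x, hx⟩ : ∃ x, x = ∑ e ∈ Z, l e • V e := ⟨_, rfl⟩
    have h1 : x ∈ convexHull ℝ (X : Set (Es (d + 1))) := by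
      rw [hx]
      refine (convex_convexHull ℝ _).sum_mem hl0 hl1 fun e he => subset_convexHull ℝ _ ?_
      rw [hX, Finset.coe_union]
      exact Or.inl (Finset.mem_coe.2 (Finset.mem_image_of_mem V he))
    have h2 : x + S • n ∈ convexHull ℝ (X : Set (Es (d + 1))) := by
      have e1 : x + S • n = ∑ e ∈ Z, l e • (V e + S • n) := by
        simp only [smul_add]
        rw [hx, Finset.sum_add_distrib, ← Finset.sum_smul, hl1, one_smul]
      rw [e1]
      refine (convex_convexHull ℝ _).sum_mem hl0 hl1 fun e he => subset_convexHull ℝ _ ?_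
      rw [hX, Finset.coe_union]
      exact Or.inr (Finset.mem_coe.2 (Finset.mem_image_of_mem (fun e => V e + S • n) he))
    have h3 : rs ι x = rs ι v := by
      rw [hx, map_sum, ← hlw]
      refine Finset.sum_congr rfl fun e he => ?_
      rw [map_smul, hV3 e he]
    have hsub : convexHull ℝ (X : Set (Es (d + 1))) ⊆ Pol K o :=
      convexHull_min hXP (Pol.convex K o)
    have h4 : hg n (x + S • n) = hg n x + S := by
      rw [hg, hg, inner_add_right, real_inner_smul_right, add_div, mul_div_assoc,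
        div_self (nn_pos H).ne', mul_one]
    have h5 : rs ι (x + S • n) = rs ι v := by
      rw [map_add, map_smul, hrn, smul_zero, add_zero, h3]
    have h6 : hg n (x + S • n) - hg n v ≤ S := hmax _ (hsub h2) v hv h5
    have h7 : hg n v - hg n x ≤ S := hmax v hv x (hsub h1) h3.symm
    have h8 := same H h3.symm
    obtain ⟨c, hc⟩ : ∃ c, c = hg n v - hg n x := ⟨_, rfl⟩
    rw [← hc] at h8 h7
    have hc0 : 0 ≤ c := by linarith
    rcases hS0.eq_or_lt with h9 | h9
    · have h10 : c = 0 := by linarith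
      rw [h10, zero_smul, add_zero] at h8
      rw [h8]; exact h1
    · have h10 : v = (1 - c / S) • x + (c / S) • (x + S • n) := by
        conv_lhs => rw [h8]
        rw [smul_add (c / S), smul_smul, div_mul_cancel₀ _ h9.ne']
        module
      rw [h10]
      exact (convex_convexHull ℝ _) h1 h2 (by rw [sub_nonneg, div_le_one h9]; exact h7)
        (by positivity) (by ring)
  refine ⟨X, ?_, ?_⟩
  · refine (Finset.card_union_le _ _).trans ?_
    have h1 : (Z.image V).card ≤ Z.card := Finset.card_image_le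
    have h2 : (Z.image (fun e => V e + S • n)).card ≤ Z.card := Finset.card_image_le
    omega
  · have h1 : Pol K o = convexHull ℝ (X : Set (Es (d + 1))) :=
      Subset.antisymm hPX (convexHull_min hXP (Pol.convex K o))
    rw [h1]
    exact extremePoints_convexHull_subset

end Pool.Agent.Q139.Edge
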