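import Pool.Agent.Q139.Cone.Star
import Pool.Agent.TH438.Hull.Equality

set_option autoImplicit false
set_option maxHeartbeats 1000000

/-!
The equality case: if the polar of the section is the convex hull of few points, then either the
directions suffice with one less, or the polar body is a prism over these points.
-/

open Set Topology Module
open scoped InnerProductSpace
open Pool.Agent.H843R3.Had2
open Pool.Agent.TH438.Hull

namespace Pool.Agent.Q139.Cone

variable {d : ℕ} {K : Set (Es (d + 1))} {o p n : Es (d + 1)} {ι : Es d →ₗᵢ[ℝ] Es (d + 1)}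

theorem ht_continuous (o p n : Es (d + 1)) : Continuous (ht o p n) := by
  unfold ht
  fun_prop

theorem ht_eq (H : Hyp K o p n ι) (v : Es (d + 1)) :
    ⟪v, p - o⟫_ℝ = 1 - ht o p n v * (-⟪n, p - o⟫_ℝ) := by
  have h2 := H.neg
  have h3 : -⟪n, p - o⟫_ℝ ≠ 0 := by linarith
  rw [ht, div_mul_cancel₀ _ h3]; ring

theorem same_fibre (H : Hyp K o p n ι) {v v' : Es (d + 1)} (h : rs ι v = rs ι v') :
    v = v' + (ht o p n v - ht o p n v') • n := by
  obtain ⟨c, hc⟩ := perp_span H (b := v - v') (fun x => by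
    rw [← inner_rs, map_sub, h, sub_self, inner_zero_left])
  have h2 := H.neg
  have h3 : -⟪n, p - o⟫_ℝ ≠ 0 := by linarith
  have h4 : ⟪v - v', p - o⟫_ℝ = c * ⟪n, p - o⟫_ℝ := by rw [hc, real_inner_smul_left]
  rw [inner_sub_left, ht_eq H v, ht_eq H v'] at h4
  have h5 : ht o p n v - ht o p n v' = c := by
    have : (ht o p n v - ht o p n v') * (-⟪n, p - o⟫_ℝ) = c * (-⟪n, p - o⟫_ℝ) := by linarith
    exact mul_right_cancel₀ h3 this
  rw [h5, ← hc]; abel

theorem fibre_nonempty (H : Hyp K o p n ι) {w : Es d} (hw : w ∈ Pol (sec K o ι) 0) :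
    ∃ v ∈ Pol K o, rs ι v = w := by
  have h2 := H.neg
  have h3 : -⟪n, p - o⟫_ℝ ≠ 0 := by linarith
  have hp : ⟪lft o p n ι w - (1 / (-⟪n, p - o⟫_ℝ)) • n, p - o⟫_ℝ = 1 := by
    rw [inner_sub_left, inner_lft_p H, real_inner_smul_left, zero_sub]
    have : 1 / (-⟪n, p - o⟫_ℝ) * ⟪n, p - o⟫_ℝ = -1 := by
      rw [div_mul_eq_mul_div, div_eq_iff h3]; ring
    rw [this, neg_neg]
  have hx : ∀ x, ⟪lft o p n ι w - (1 / (-⟪n, p - o⟫_ℝ)) • n, ι x⟫_ℝ = ⟪w, x⟫_ℝ := by
    intro x
    rw [inner_sub_left, inner_lft H, real_inner_smul_left, H.perp, mul_zero, sub_zero]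
  have hH : ∀ y ∈ K, ⟪n, y - o⟫_ℝ = 0 →
      ⟪lft o p n ι w - (1 / (-⟪n, p - o⟫_ℝ)) • n, y - o⟫_ℝ ≤ 1 := by
    intro y hy h1
    obtain ⟨x, hx'⟩ := exists_sec H h1
    rw [← hx', hx]
    have := hw x (by
      show o + ι x ∈ K
      rw [hx']; simpa using hy)
    rwa [sub_zero] at this
  refine ⟨lft o p n ι w - (1 / (-⟪n, p - o⟫_ℝ)) • n, ?_, ?_⟩
  · intro y hy
    rcases le_total ⟪n, y - o⟫_ℝ 0 with h1 | h1
    · exact neg_side H hp.le hH y hy h1
    · have := pos_side H le_rfl hp (fun y hy h => by rw [sub_zero]; exact hH y hy h) y hy h1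
      rwa [sub_zero] at this
  · refine ext_inner_right ℝ fun x => ?_
    rw [inner_rs, hx]

theorem down_int (H : Hyp K o p n ι) {z : Es (d + 1)} (hz : z ∈ interior (Pol K o)) {c : ℝ}
    (hc0 : 0 ≤ c) (hc : c < ht o p n z) : z - c • n ∈ interior (Pol K o) := by
  have hs : 0 < ht o p n z := lt_of_le_of_lt hc0 hc
  have h1 := pr_mem H (interior_subset hz)
  have e : z - c • n = (1 - c / ht o p n z) • z + (c / ht o p n z) • pr o p n z := by
    rw [pr, smul_sub, smul_smul, div_mul_cancel₀ _ hs.ne']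
    module
  rw [e]
  exact (Pol.convex K o).combo_interior_self_mem_interior hz h1
    (by rw [sub_pos, div_lt_one hs]; exact hc) (by positivity) (by ring)

/-- there is a point of maximal height over each of the points `e` -/
theorem top (H : Hyp K o p n ι) (Z : Finset (Es d))
    (hZ : Pol (sec K o ι) 0 = convexHull ℝ (Z : Set (Es d)))
    (hno : ¬ ∃ D : Finset (Es (d + 1)), D.card ≤ 2 * Z.card - 1 ∧
      ∀ v ∈ Pol K o, ∃ u ∈ D, Co (Pol K o) v u)
    {v₀ : Es (d + 1)} (hv₀ : v₀ ∈ Pol K o) (hmax : ∀ v ∈ Pol K o, ht o p n v ≤ ht o p n v₀)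
    {e : Es d} (he : e ∈ Z) : ∃ v ∈ Pol K o, rs ι v = e ∧ ht o p n v = ht o p n v₀ := by
  classical
  by_contra hcon
  push Not at hcon
  apply hno
  have hPc : IsCompact (Pol K o) := Pol.isCompact H.int
  have hP0 : (0 : Es (d + 1)) ∈ interior (Pol K o) := Pol.zero_mem_interior H.comp
  have heQ : ∀ y ∈ Z, y ∈ Pol (sec K o ι) 0 := fun y hy => by
    rw [hZ]; exact subset_convexHull ℝ _ hy
  -- the highest point over `e`
  obtain ⟨v₁, hv₁⟩ := fibre_nonempty H (heQ e he)
  have hFc : IsCompact (Pol K o ∩ {v | rs ι v = e}) :=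
    hPc.inter_right (isClosed_eq (rs ι).continuous continuous_const)
  obtain ⟨ve, ⟨hve, hve'⟩, hvmax⟩ := hFc.exists_isMaxOn ⟨v₁, hv₁⟩
    (f := ht o p n) (ht_continuous o p n).continuousOn
  have hve' : rs ι ve = e := hve'
  have hlt : ht o p n ve < ht o p n v₀ := lt_of_le_of_ne (hmax ve hve) (hcon ve hve hve')
  have hve0 := ht_nonneg H hve
  obtain ⟨S, hS⟩ : ∃ S, S = ht o p n v₀ := ⟨_, rfl⟩
  obtain ⟨s, hs⟩ : ∃ s, s = ht o p n ve := ⟨_, rfl⟩
  rw [← hS, ← hs] at hlt
  rw [← hs] at hve0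
  have hS0 : 0 < S := lt_of_le_of_lt hve0 hlt
  set θ : ℝ := (S - s) / (2 * S) with hθ
  have hθ0 : 0 < θ := div_pos (by linarith) (by positivity)
  have hθ1 : θ < 1 := by rw [hθ, div_lt_one (by positivity)]; linarith
  have hθS : θ * S = (S - s) / 2 := by rw [hθ]; field_simp
  have hz : (1 - θ) • v₀ ∈ interior (Pol K o) := by
    have := (Pol.convex K o).combo_self_interior_mem_interior hv₀ hP0 (a := 1 - θ) (b := θ)
      (by linarith) hθ0 (by ring)
    rwa [smul_zero, add_zero] at this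
  have hh : 0 < -⟪n, p - o⟫_ℝ := by have := H.neg; linarith
  have hhz : s < ht o p n ((1 - θ) • v₀) := by
    have h1 : (1 - θ) * S ≤ ht o p n ((1 - θ) • v₀) := by
      rw [hS, ht, ht, real_inner_smul_left, le_div_iff₀ hh, mul_assoc, div_mul_cancel₀ _ hh.ne']
      linarith
    refine lt_of_lt_of_le ?_ h1
    have : (1 - θ) * S = S - θ * S := by ring
    rw [this, hθS]; linarith
  set g : Es (d + 1) := (1 - θ) • v₀ - ve with hg
  have hfib : ∀ v ∈ Pol K o, rs ι v = e → v + g ∈ interior (Pol K o) := by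
    intro v hv hve2
    have h1 := same_fibre H (v := v) (v' := ve) (hve2.trans hve'.symm)
    have h2 : ht o p n v ≤ ht o p n ve := hvmax ⟨hv, hve2⟩
    have h3 := ht_nonneg H hv
    have h4 : v + g = (1 - θ) • v₀ - (ht o p n ve - ht o p n v) • n := by
      conv_lhs => rw [h1]
      rw [hg]; module
    rw [h4]
    exact down_int H hz (by linarith) (by rw [← hs]; linarith)
  -- the points far from the fibre
  obtain ⟨δ, hδ, hfar⟩ : ∃ δ : ℝ, 0 < δ ∧ ∀ v ∈ Pol K o, v + g ∉ interior (Pol K o) →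
      δ ≤ ‖rs ι v - e‖ := by
    have hCc : IsCompact (Pol K o ∩ {v | v + g ∉ interior (Pol K o)}) := by
      refine hPc.inter_right ?_
      have : IsOpen {v | v + g ∈ interior (Pol K o)} :=
        isOpen_interior.preimage (continuous_id.add continuous_const)
      exact this.isClosed_compl
    rcases (Pol K o ∩ {v | v + g ∉ interior (Pol K o)}).eq_empty_or_nonempty with h0 | h0
    · refine ⟨1, one_pos, fun v hv hvg => ?_⟩
      have : v ∈ Pol K o ∩ {v | v + g ∉ interior (Pol K o)} := ⟨hv, hvg⟩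
      rw [h0] at this
      exact absurd this (notMem_empty v)
    · obtain ⟨v₂, ⟨h1, h2⟩, h3⟩ := hCc.exists_isMinOn h0 (f := fun v => ‖rs ι v - e‖)
        (by fun_prop)
      refine ⟨‖rs ι v₂ - e‖, norm_pos_iff.2 fun h4 => h2 (hfib v₂ h1 (sub_eq_zero.1 h4)),
        fun v hv hvg => h3 ⟨hv, hvg⟩⟩
  -- the directions
  set M : ℝ := ∑ y ∈ Z, ‖y - e‖ + 1 with hM
  have hM0 : 0 < M := by
    have : 0 ≤ ∑ y ∈ Z, ‖y - e‖ := Finset.sum_nonneg fun _ _ => norm_nonneg _
    linarith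
  have hMy : ∀ y ∈ Z, ‖y - e‖ ≤ M := by
    intro y hy
    have : ‖y - e‖ ≤ ∑ y ∈ Z, ‖y - e‖ :=
      Finset.single_le_sum (f := fun y => ‖y - e‖) (fun _ _ => norm_nonneg _) hy
    linarith
  have hZ0 : 0 < (Z.card : ℝ) := by
    exact_mod_cast Finset.card_pos.2 ⟨e, he⟩
  set κ : ℝ := δ / (2 * Z.card * M) with hκ
  have hκ0 : 0 < κ := by positivity
  obtain ⟨D, hD, hD1⟩ := core H ((Z.erase e).image (fun y => κ • y)) hκ0
  refine ⟨insert g D, ?_, ?_⟩
  · have h1 := Finset.card_insert_le g D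
    have h2 : ((Z.erase e).image (fun y => κ • y)).card ≤ (Z.erase e).card :=
      Finset.card_image_le
    rw [Finset.card_erase_of_mem he] at h2
    have h3 : 0 < Z.card := Finset.card_pos.2 ⟨e, he⟩
    omega
  intro v hv
  by_cases hvg : v + g ∈ interior (Pol K o)
  · exact ⟨g, Finset.mem_insert_self _ _, 1, one_pos, by rwa [one_smul]⟩
  have hfar' := hfar v hv hvg
  have hw := rs_mem (ι := ι) hv
  rw [hZ, Finset.mem_convexHull'] at hw
  obtain ⟨l, hl0, hl1, hlw⟩ := hw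
  -- a large weight
  obtain ⟨y, hy, hly⟩ : ∃ y ∈ Z.erase e, κ ≤ l y := by
    by_contra hsmall
    push Not at hsmall
    have h1 : rs ι v - e = ∑ y ∈ Z.erase e, l y • (y - e) := by
      have h2 : ∑ y ∈ Z, l y • (y - e) = rs ι v - e := by
        simp only [smul_sub]
        rw [Finset.sum_sub_distrib, hlw, ← Finset.sum_smul, hl1, one_smul]
      rw [← h2, ← Finset.add_sum_erase _ _ he, sub_self, smul_zero, zero_add]
    have h3 : ‖rs ι v - e‖ ≤ ∑ y ∈ Z.erase e, κ * M := by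
      rw [h1]
      refine (norm_sum_le _ _).trans (Finset.sum_le_sum fun y hy => ?_)
      have hyZ := Finset.mem_of_mem_erase hy
      rw [norm_smul, Real.norm_eq_abs, abs_of_nonneg (hl0 y hyZ)]
      exact mul_le_mul (hsmall y hy).le (hMy y hyZ) (norm_nonneg _) hκ0.le
    rw [Finset.sum_const, nsmul_eq_mul] at h3
    have h4 : ((Z.erase e).card : ℝ) ≤ Z.card := by
      exact_mod_cast Finset.card_le_card (Finset.erase_subset _ _)
    have h5 : ((Z.erase e).card : ℝ) * (κ * M) ≤ Z.card * (κ * M) :=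
      mul_le_mul_of_nonneg_right h4 (mul_nonneg hκ0.le hM0.le)
    have h6 : (Z.card : ℝ) * (κ * M) = δ / 2 := by rw [hκ]; field_simp
    linarith
  have hyZ := Finset.mem_of_mem_erase hy
  suffices hcond : ∀ x : Es d, o + ι x ∈ K → ⟪v, ι x⟫_ℝ - ⟪κ • y, x⟫_ℝ ≤ 1 - κ by
    obtain ⟨u, hu, h1⟩ := hD1 v hv ⟨κ • y, Finset.mem_image_of_mem _ hy, hcond⟩
    exact ⟨u, Finset.mem_insert_of_mem hu, 1, one_pos, by rwa [one_smul]⟩
  intro x hx
  have hx1 : ∀ y' ∈ Z, ⟪y', x⟫_ℝ ≤ 1 := by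
    intro y' hy'
    have := heQ y' hy' x hx
    rwa [sub_zero] at this
  rw [← inner_rs, ← hlw, sum_inner, real_inner_smul_left]
  have h2 : ∑ y' ∈ Z, ⟪l y' • y', x⟫_ℝ - κ * ⟪y, x⟫_ℝ =
      ∑ y' ∈ Z, (l y' - if y' = y then κ else 0) * ⟪y', x⟫_ℝ := by
    simp only [real_inner_smul_left, sub_mul, ite_mul, zero_mul]
    rw [Finset.sum_sub_distrib, Finset.sum_ite_eq' Z y, if_pos hyZ]
  rw [h2]
  have h3 : ∑ y' ∈ Z, (l y' - if y' = y then κ else 0) = 1 - κ := by
    rw [Finset.sum_sub_distrib, hl1, Finset.sum_ite_eq' Z y, if_pos hyZ]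
  rw [← h3]
  refine Finset.sum_le_sum fun y' hy' => ?_
  have h4 : 0 ≤ l y' - if y' = y then κ else 0 := by
    split_ifs with h5
    · rw [h5]; linarith
    · have := hl0 y' hy'; linarith
  exact mul_le_of_le_one_right h4 (hx1 y' hy')

/-- **The equality step.** -/
theorem eq_step (H : Hyp K o p n ι) (Z : Finset (Es d))
    (hZ : Pol (sec K o ι) 0 = convexHull ℝ (Z : Set (Es d)))
    (hno : ¬ ∃ D : Finset (Es (d + 1)), D.card ≤ 2 * Z.card - 1 ∧
      ∀ v ∈ Pol K o, ∃ u ∈ D, Co (Pol K o) v u) :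
    ∃ X : Finset (Es (d + 1)), X.card ≤ 2 * Z.card ∧ (Pol K o).extremePoints ℝ ⊆ X := by
  classical
  have hPc : IsCompact (Pol K o) := Pol.isCompact H.int
  have hP0 : (0 : Es (d + 1)) ∈ interior (Pol K o) := Pol.zero_mem_interior H.comp
  obtain ⟨v₀, hv₀, hmax⟩ := hPc.exists_isMaxOn ⟨0, interior_subset hP0⟩
    (f := ht o p n) (ht_continuous o p n).continuousOn
  have htop : ∀ e ∈ Z, ∃ v, v ∈ Pol K o ∧ rs ι v = e ∧ ht o p n v = ht o p n v₀ :=
    fun e he => top H Z hZ hno hv₀ (fun v hv => hmax hv) he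
  choose! V hV1 hV2 hV3 using htop
  obtain ⟨S, hS⟩ : ∃ S, S = ht o p n v₀ := ⟨_, rfl⟩
  set X : Finset (Es (d + 1)) := Z.image V ∪ Z.image (fun e => V e - S • n) with hX
  have hXP : (X : Set (Es (d + 1))) ⊆ Pol K o := by
    intro x hx
    rw [hX, Finset.coe_union, Finset.coe_image, Finset.coe_image] at hx
    rcases hx with ⟨e, he, rfl⟩ | ⟨e, he, rfl⟩
    · exact hV1 e he
    · have := pr_mem H (hV1 e he)
      rwa [pr, hV3 e he, ← hS] at this
  have hPX : Pol K o ⊆ convexHull ℝ (X : Set (Es (d + 1))) := by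
    intro v hv
    have hw := rs_mem (ι := ι) hv
    rw [hZ, Finset.mem_convexHull'] at hw
    obtain ⟨l, hl0, hl1, hlw⟩ := hw
    have h1 : ∑ e ∈ Z, l e • V e ∈ convexHull ℝ (X : Set (Es (d + 1))) := by
      refine (convex_convexHull ℝ _).sum_mem hl0 hl1 fun e he => subset_convexHull ℝ _ ?_
      rw [hX, Finset.coe_union]
      exact Or.inl (Finset.mem_coe.2 (Finset.mem_image_of_mem V he))
    have h2 : ∑ e ∈ Z, l e • V e - S • n ∈ convexHull ℝ (X : Set (Es (d + 1))) := by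
      have e1 : ∑ e ∈ Z, l e • V e - S • n = ∑ e ∈ Z, l e • (V e - S • n) := by
        simp only [smul_sub]
        rw [Finset.sum_sub_distrib, ← Finset.sum_smul, hl1, one_smul]
      rw [e1]
      refine (convex_convexHull ℝ _).sum_mem hl0 hl1 fun e he => subset_convexHull ℝ _ ?_
      rw [hX, Finset.coe_union]
      exact Or.inr (Finset.mem_coe.2 (Finset.mem_image_of_mem (fun e => V e - S • n) he))
    have h3 : rs ι (∑ e ∈ Z, l e • V e) = rs ι v := by
      rw [map_sum, ← hlw]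
      refine Finset.sum_congr rfl fun e he => ?_
      rw [map_smul, hV2 e he]
    have h4 : ht o p n (∑ e ∈ Z, l e • V e) = S := by
      have hh : -⟪n, p - o⟫_ℝ ≠ 0 := by have := H.neg; linarith
      have h5 : ⟪∑ e ∈ Z, l e • V e, p - o⟫_ℝ = 1 - S * (-⟪n, p - o⟫_ℝ) := by
        rw [sum_inner]
        have : ∀ e ∈ Z, ⟪l e • V e, p - o⟫_ℝ = l e * (1 - S * (-⟪n, p - o⟫_ℝ)) := by
          intro e he
          rw [real_inner_smul_left, ht_eq H, hV3 e he, ← hS]
        rw [Finset.sum_congr rfl this, ← Finset.sum_mul, hl1, one_mul]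
      rw [ht, h5, sub_sub_cancel, mul_div_assoc, div_self hh, mul_one]
    have h6 := same_fibre H h3.symm
    rw [h4] at h6
    have h7 := ht_nonneg H hv
    have h8 : ht o p n v ≤ S := hS ▸ hmax hv
    rcases eq_or_lt_of_le (h7.trans h8) with h9 | h9
    · have h10 : ht o p n v - S = 0 := by linarith
      rw [h10, zero_smul, add_zero] at h6
      rw [h6]; exact h1
    · have h10 : v = (ht o p n v / S) • ∑ e ∈ Z, l e • V e +
          (1 - ht o p n v / S) • (∑ e ∈ Z, l e • V e - S • n) := by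
        conv_lhs => rw [h6]
        have h11 : ht o p n v = ht o p n v / S * S := by field_simp
        rw [smul_sub, smul_smul, sub_mul, one_mul, ← h11]
        module
      rw [h10]
      exact (convex_convexHull ℝ _) h1 h2 (by positivity)
        (by rw [sub_nonneg, div_le_one h9]; exact h8) (by ring)
  refine ⟨X, ?_, ?_⟩
  · refine (Finset.card_union_le _ _).trans ?_
    have h1 : (Z.image V).card ≤ Z.card := Finset.card_image_le
    have h2 : (Z.image (fun e => V e - S • n)).card ≤ Z.card := Finset.card_image_le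
    omega
  · have h1 : Pol K o = convexHull ℝ (X : Set (Es (d + 1))) :=
      Subset.antisymm hPX (convexHull_min hXP (Pol.convex K o))
    rw [h1]
    exact extremePoints_convexHull_subset

end Pool.Agent.Q139.Cone
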