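import Pool.Agent.Q139.Cone.Edge

set_option autoImplicit false
set_option maxHeartbeats 1000000

/-!
The convex hull of a convex body in a hyperplane and a convex set that meets the hyperplane in the
relative interior of the body.
-/

open Set Topology Module
open scoped InnerProductSpace
open Pool.Agent.H843R3.Had2
open Pool.Agent.TH438.Hull

namespace Pool.Agent.Q139.Edge

open Pool.Agent.Q139.Cone

variable {d : ℕ} {o n : Es (d + 1)} {ι : Es d →ₗᵢ[ℝ] Es (d + 1)}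

theorem exists_normal (ι : Es d →ₗᵢ[ℝ] Es (d + 1)) :
    ∃ n : Es (d + 1), n ≠ 0 ∧ ∀ x, ⟪n, ι x⟫_ℝ = 0 := by
  set R := LinearMap.range ι.toLinearMap with hR
  have h1 : finrank ℝ R = d := by
    rw [hR, LinearMap.finrank_range_of_inj ι.injective]; simp
  have h2 : finrank ℝ Rᗮ = 1 := by
    have := R.finrank_add_finrank_orthogonal
    rw [h1] at this
    simp at this
    omega
  obtain ⟨⟨n, hn⟩, hn0, _⟩ := finrank_eq_one_iff'.1 h2
  refine ⟨n, fun h => hn0 (Subtype.ext h), fun x => ?_⟩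
  rw [Submodule.mem_orthogonal'] at hn
  exact hn _ ⟨x, rfl⟩

theorem exists_sec' (hn : n ≠ 0) (hp : ∀ x, ⟪n, ι x⟫_ℝ = 0) {z : Es (d + 1)}
    (hz : ⟪n, z⟫_ℝ = 0) : ∃ x, ι x = z := by
  set R := LinearMap.range ι.toLinearMap with hR
  have h1 : finrank ℝ R = d := by
    rw [hR, LinearMap.finrank_range_of_inj ι.injective]; simp
  have h2 : finrank ℝ Rᗮ = 1 := by
    have := R.finrank_add_finrank_orthogonal
    rw [h1] at this
    simp at this
    omega
  have hnR : n ∈ Rᗮ := by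
    rw [Submodule.mem_orthogonal']
    rintro _ ⟨x, rfl⟩
    exact hp x
  obtain ⟨a, ha, b, hb, rfl⟩ := R.exists_add_mem_mem_orthogonal z
  obtain ⟨c, hc⟩ := (finrank_eq_one_iff_of_nonzero' (⟨n, hnR⟩ : Rᗮ)
    (by intro h; exact hn (congrArg Subtype.val h))).1 h2 ⟨b, hb⟩
  have hc' : b = c • n := (congrArg Subtype.val hc).symm
  obtain ⟨x, hx⟩ := ha
  have h3 : ⟪n, a⟫_ℝ = 0 := by rw [← hx]; exact hp x
  rw [inner_add_right, h3, zero_add, hc', real_inner_smul_right] at hz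
  have h4 : c = 0 := by
    rcases mul_eq_zero.1 hz with h | h
    · exact h
    · exact absurd (inner_self_eq_zero.1 h) hn
  refine ⟨x, ?_⟩
  rw [hc', h4, zero_smul, add_zero]
  exact hx

/-- the hull -/
def hull (B : Set (Es d)) (C : Set (Es (d + 1))) (o : Es (d + 1))
    (ι : Es d →ₗᵢ[ℝ] Es (d + 1)) : Set (Es (d + 1)) :=
  convexHull ℝ ((fun x => o + ι x) '' B ∪ C)

variable {B : Set (Es d)} {C : Set (Es (d + 1))}

theorem image_convex (hB : Convex ℝ B) : Convex ℝ ((fun x => o + ι x) '' B) := by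
  rintro _ ⟨x, hx, rfl⟩ _ ⟨y, hy, rfl⟩ a b ha hb hab
  refine ⟨a • x + b • y, hB hx hy ha hb hab, ?_⟩
  show o + ι (a • x + b • y) = a • (o + ι x) + b • (o + ι y)
  rw [map_add, map_smul, map_smul]
  obtain rfl : b = 1 - a := by linarith
  module

theorem C_nonempty (hn : n ≠ 0) (hp : ∀ x, ⟪n, ι x⟫_ℝ = 0)
    (ho : o ∈ interior (hull B C o ι)) (hB : Convex ℝ B) : C.Nonempty := by
  rw [nonempty_iff_ne_empty]
  rintro rfl
  rw [hull, union_empty, (image_convex hB).convexHull_eq] at ho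
  obtain ⟨ε, hε, h1⟩ := Co.of_interior ho n
  obtain ⟨x, hx, h2⟩ := interior_subset h1
  simp only at h2
  have h3 : ι x = ε • n := add_left_cancel h2
  have h4 : ⟪n, ε • n⟫_ℝ = 0 := by rw [← h3]; exact hp x
  rw [real_inner_smul_right] at h4
  rcases mul_eq_zero.1 h4 with h | h
  · exact hε.ne' h
  · exact hn (inner_self_eq_zero.1 h)

theorem section_hull (hn : n ≠ 0) (hp : ∀ x, ⟪n, ι x⟫_ℝ = 0)
    (hB : Convex ℝ B) (hB0 : B.Nonempty) (hC : Convex ℝ C)
    (hBC : ∀ x, o + ι x ∈ C → x ∈ interior B) : sec (hull B C o ι) o ι = B := by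
  refine Subset.antisymm ?_ fun x hx => subset_convexHull ℝ _ (Or.inl ⟨x, hx, rfl⟩)
  intro x hx
  have hx : o + ι x ∈ hull B C o ι := hx
  have hinj : ∀ y, o + ι y = o + ι x → y = x := fun y h => ι.injective (add_left_cancel h)
  rcases C.eq_empty_or_nonempty with rfl | hC0
  · rw [hull, union_empty, (image_convex hB).convexHull_eq] at hx
    obtain ⟨y, hy, h1⟩ := hx
    rw [← hinj y h1]; exact hy
  rw [hull, convexHull_union (hB0.image _) hC0, (image_convex hB).convexHull_eq,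
    hC.convexHull_eq, mem_convexJoin] at hx
  obtain ⟨_, ⟨b, hb, rfl⟩, c, hc, a, a', ha, ha', haa, h1⟩ := hx
  simp only at h1
  have h2 : ⟪n, a' • (c - o)⟫_ℝ = 0 := by
    have e : a' • (c - o) = ι x - a • ι b := by
      have : a' • c = o + ι x - a • (o + ι b) := by rw [← h1]; abel
      rw [smul_sub, this]
      obtain rfl : a' = 1 - a := by linarith
      module
    rw [e, inner_sub_right, real_inner_smul_right, hp, hp]; ring
  rcases ha'.eq_or_lt with h3 | h3
  · rw [← h3] at haa h1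
    rw [add_zero] at haa
    rw [haa, one_smul, zero_smul, add_zero] at h1
    rw [← hinj b h1]; exact hb
  · rw [real_inner_smul_right] at h2
    have h4 : ⟪n, c - o⟫_ℝ = 0 := (mul_eq_zero.1 h2).resolve_left h3.ne'
    obtain ⟨y, hy⟩ := exists_sec' hn hp h4
    have hcy : c = o + ι y := by rw [hy]; abel
    have hyB := interior_subset (hBC y (by rw [← hcy]; exact hc))
    have h5 : x = a • b + a' • y := by
      apply ι.injective
      have : o + ι x = o + ι (a • b + a' • y) := by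
        rw [← h1, hcy, map_add, map_smul, map_smul]
        obtain rfl : a' = 1 - a := by linarith
        module
      exact add_left_cancel this
    rw [h5]
    exact hB hb hyB ha ha' haa

/-- the two extensions -/
theorem edge_hull (hn : n ≠ 0) (hp : ∀ x, ⟪n, ι x⟫_ℝ = 0) (hC : Convex ℝ C) (hCc : IsCompact C)
    (hC0 : C.Nonempty) (hBC : ∀ x, o + ι x ∈ C → x ∈ interior B) {w : Es d}
    (hw : ∀ x ∈ B, ⟪w, x⟫_ℝ ≤ 1) :
    ∃ v v' : Es (d + 1), v ≠ v' ∧ (∀ x, ⟪v, ι x⟫_ℝ = ⟪w, x⟫_ℝ) ∧ (∀ x, ⟪v', ι x⟫_ℝ = ⟪w, x⟫_ℝ) ∧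
      (∀ y ∈ hull B C o ι, ⟪v, y - o⟫_ℝ ≤ 1) ∧ (∀ y ∈ hull B C o ι, ⟪v', y - o⟫_ℝ ≤ 1) := by
  -- it suffices to find two slopes
  suffices hs : ∃ s s' : ℝ, s ≠ s' ∧ (∀ y ∈ C, ⟪ι w, y - o⟫_ℝ + s * ⟪n, y - o⟫_ℝ ≤ 1) ∧
      (∀ y ∈ C, ⟪ι w, y - o⟫_ℝ + s' * ⟪n, y - o⟫_ℝ ≤ 1) by
    obtain ⟨s, s', hss, h1, h2⟩ := hs
    have key : ∀ s : ℝ, (∀ y ∈ C, ⟪ι w, y - o⟫_ℝ + s * ⟪n, y - o⟫_ℝ ≤ 1) →
        ∀ y ∈ hull B C o ι, ⟪ι w + s • n, y - o⟫_ℝ ≤ 1 := by
      intro s h y hy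
      have h3 : hull B C o ι ⊆ {y | ⟪ι w + s • n, y - o⟫_ℝ ≤ 1} := by
        refine convexHull_min ?_ ?_
        · rintro y (⟨x, hx, rfl⟩ | hy)
          · show ⟪ι w + s • n, o + ι x - o⟫_ℝ ≤ 1
            rw [add_sub_cancel_left, inner_add_left, real_inner_smul_left, hp, mul_zero, add_zero,
              ι.inner_map_map]
            exact hw x hx
          · show ⟪ι w + s • n, y - o⟫_ℝ ≤ 1
            rw [inner_add_left, real_inner_smul_left]
            exact h y hy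
        · intro x hx z hz a b ha hb hab
          obtain rfl : b = 1 - a := by linarith
          show ⟪ι w + s • n, a • x + (1 - a) • z - o⟫_ℝ ≤ 1
          have e : a • x + (1 - a) • z - o = a • (x - o) + (1 - a) • (z - o) := by module
          rw [e, inner_add_right, real_inner_smul_right, real_inner_smul_right]
          have hx' : ⟪ι w + s • n, x - o⟫_ℝ ≤ 1 := hx
          have hz' : ⟪ι w + s • n, z - o⟫_ℝ ≤ 1 := hz
          nlinarith
      exact h3 hy
    have hx : ∀ (s : ℝ) (x : Es d), ⟪ι w + s • n, ι x⟫_ℝ = ⟪w, x⟫_ℝ := by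
      intro s x
      rw [inner_add_left, real_inner_smul_left, hp, mul_zero, add_zero, ι.inner_map_map]
    refine ⟨ι w + s • n, ι w + s' • n, fun h => hss ?_, hx s, hx s', key s h1, key s' h2⟩
    have h3 : (s - s') • n = 0 := by
      have := add_left_cancel h
      rw [sub_smul, this, sub_self]
    rcases smul_eq_zero.1 h3 with h4 | h4
    · linarith
    · exact absurd h4 hn
  -- separation in the plane
  let φ : Es (d + 1) → ℝ × ℝ := fun y => (⟪ι w, y - o⟫_ℝ, ⟪n, y - o⟫_ℝ)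
  have hφc : Continuous φ := by
    show Continuous fun y => (⟪ι w, y - o⟫_ℝ, ⟪n, y - o⟫_ℝ)
    fun_prop
  have hφv : Convex ℝ (φ '' C) := by
    rintro _ ⟨x, hx, rfl⟩ _ ⟨y, hy, rfl⟩ a b ha hb hab
    refine ⟨a • x + b • y, hC hx hy ha hb hab, ?_⟩
    obtain rfl : b = 1 - a := by linarith
    show (⟪ι w, a • x + (1 - a) • y - o⟫_ℝ, ⟪n, a • x + (1 - a) • y - o⟫_ℝ) = _
    have e : a • x + (1 - a) • y - o = a • (x - o) + (1 - a) • (y - o) := by module
    rw [e, inner_add_right, inner_add_right, real_inner_smul_right, real_inner_smul_right,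
      real_inner_smul_right, real_inner_smul_right]
    rfl
  have hdis : Disjoint (φ '' C) (Ici (1 : ℝ) ×ˢ ({0} : Set ℝ)) := by
    rw [Set.disjoint_left]
    rintro _ ⟨y, hy, rfl⟩ ⟨h1, h2⟩
    have h1 : 1 ≤ ⟪ι w, y - o⟫_ℝ := h1
    have h2 : ⟪n, y - o⟫_ℝ = 0 := h2
    obtain ⟨x, hx⟩ := exists_sec' hn hp h2
    have hxB := hBC x (by rw [hx]; simpa using hy)
    rw [← hx, ι.inner_map_map] at h1
    obtain ⟨ε, hε, h3⟩ := Co.of_interior hxB x
    have h4 := hw _ (interior_subset h3)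
    rw [inner_add_right, real_inner_smul_right] at h4
    nlinarith
  obtain ⟨f, u, v, hf1, huv, hf2⟩ := geometric_hahn_banach_compact_closed hφv (hCc.image hφc)
    ((convex_Ici (1 : ℝ)).prod (convex_singleton (0 : ℝ))) (isClosed_Ici.prod isClosed_singleton)
    hdis
  obtain ⟨α, hα⟩ : ∃ α, α = f (1, 0) := ⟨_, rfl⟩
  obtain ⟨β, hβ⟩ : ∃ β, β = f (0, 1) := ⟨_, rfl⟩
  have hf : ∀ a b : ℝ, f (a, b) = a * α + b * β := by
    intro a b
    have e : ((a, b) : ℝ × ℝ) = a • ((1, 0) : ℝ × ℝ) + b • ((0, 1) : ℝ × ℝ) := by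
      ext <;> simp
    rw [e, map_add, map_smul, map_smul, ← hα, ← hβ]
    simp
  have h1 : ∀ y ∈ C, ⟪ι w, y - o⟫_ℝ * α + ⟪n, y - o⟫_ℝ * β < u := by
    intro y hy
    rw [← hf]
    exact hf1 _ ⟨y, hy, rfl⟩
  have h2 : ∀ a : ℝ, 1 ≤ a → v < a * α := by
    intro a ha
    have := hf2 (a, 0) ⟨ha, rfl⟩
    rwa [hf, zero_mul, add_zero] at this
  have hα0 : 0 ≤ α := by
    by_contra hneg
    push Not at hneg
    have h3 := h2 (max 1 (v / α)) (le_max_left _ _)
    have h4 : max 1 (v / α) * α ≤ v / α * α := mul_le_mul_of_nonpos_right (le_max_right _ _) hneg.le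
    rw [div_mul_cancel₀ _ hneg.ne] at h4
    linarith
  obtain ⟨R, hR0, hR⟩ := exists_bound o hCc
  have hT : ∀ z : Es (d + 1), ∀ y ∈ C, |⟪z, y - o⟫_ℝ| ≤ ‖z‖ * R := by
    intro z y hy
    refine (abs_real_inner_le_norm _ _).trans ?_
    exact mul_le_mul_of_nonneg_left (hR y hy) (norm_nonneg _)
  rcases hα0.eq_or_lt with h0 | h0
  · -- the set `C` is on one side
    rw [← h0] at h1 h2
    have h3 : v < 0 := by simpa using h2 1 le_rfl
    have hu : u < 0 := by linarith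
    obtain ⟨y₀, hy₀⟩ := hC0
    have hβ0 : β ≠ 0 := by
      rintro rfl
      have := h1 y₀ hy₀
      simp at this
      linarith
    set F : ℝ := ‖ι w‖ * R with hF
    have hF0 : 0 ≤ F := by positivity
    have key : ∀ l : ℝ, F / (-u) ≤ l → ∀ y ∈ C, ⟪ι w, y - o⟫_ℝ + (l * β) * ⟪n, y - o⟫_ℝ ≤ 1 := by
      intro l hl y hy
      have h4 := h1 y hy
      rw [mul_zero, zero_add] at h4
      have h5 := (abs_le.1 (hT (ι w) y hy)).2
      have h6 : F ≤ l * (-u) := by
        rwa [div_le_iff₀ (by linarith)] at hl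
      have hl0 : 0 ≤ l := le_trans (div_nonneg hF0 (by linarith)) hl
      have h7 : l * (⟪n, y - o⟫_ℝ * β) ≤ l * u := mul_le_mul_of_nonneg_left h4.le hl0
      have h8 : (l * β) * ⟪n, y - o⟫_ℝ = l * (⟪n, y - o⟫_ℝ * β) := by ring
      rw [h8]
      linarith
    refine ⟨F / (-u) * β, (F / (-u) + 1) * β, ?_, key _ le_rfl, key _ (by linarith)⟩
    intro h
    have := mul_right_cancel₀ hβ0 h
    linarith
  · have hv : v < α := by simpa using h2 1 le_rfl
    set m : ℝ := 1 - u / α with hm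
    have hm0 : 0 < m := by
      have : u / α < 1 := by rw [div_lt_one h0]; linarith
      linarith
    set T : ℝ := ‖n‖ * R + 1 with hTdef
    have hT0 : 0 < T := by positivity
    have h3 : ∀ y ∈ C, ⟪ι w, y - o⟫_ℝ + β / α * ⟪n, y - o⟫_ℝ ≤ 1 - m := by
      intro y hy
      have h4 : ⟪ι w, y - o⟫_ℝ + β / α * ⟪n, y - o⟫_ℝ =
          (⟪ι w, y - o⟫_ℝ * α + ⟪n, y - o⟫_ℝ * β) / α := by field_simp
      have h5 : 1 - m = u / α := by rw [hm]; ring
      rw [h4, h5]
      exact div_le_div_of_nonneg_right (h1 y hy).le h0.le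
    refine ⟨β / α, β / α + m / T, ?_, fun y hy => (h3 y hy).trans (by linarith), fun y hy => ?_⟩
    · intro h
      have : m / T = 0 := by linarith
      exact (div_pos hm0 hT0).ne' this
    · have h4 := h3 y hy
      have h5 := (abs_le.1 (hT n y hy)).2
      have h6 : m / T * ⟪n, y - o⟫_ℝ ≤ m / T * T :=
        mul_le_mul_of_nonneg_left (by linarith) (div_pos hm0 hT0).le
      rw [div_mul_cancel₀ _ hT0.ne'] at h6
      rw [add_mul]
      linarith

end Pool.Agent.Q139.Edge
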