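import Pool.Agent.Q139.Cone.Core
import Pool.Agent.W677.Summand

set_option autoImplicit false

/-!
The section of the body and the projection of the polar body; the bound `2 N`.
-/

open Set Topology Module
open scoped InnerProductSpace
open Pool.Agent.H843R3.Had2
open Pool.Agent.TH438.Hull

namespace Pool.Agent.Q139.Cone

/-- the section of `K` by the hyperplane `o + range ι`, in the coordinates given by `ι` -/
def sec {d : ℕ} (K : Set (Es (d + 1))) (o : Es (d + 1)) (ι : Es d →ₗᵢ[ℝ] Es (d + 1)) :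
    Set (Es d) := {x | o + ι x ∈ K}

variable {d : ℕ} {K : Set (Es (d + 1))} {o p n : Es (d + 1)} {ι : Es d →ₗᵢ[ℝ] Es (d + 1)}

theorem sec_convex (hK : Convex ℝ K) : Convex ℝ (sec K o ι) := by
  intro x hx y hy a b ha hb hab
  show o + ι (a • x + b • y) ∈ K
  have h := hK hx hy ha hb hab
  have e : o + ι (a • x + b • y) = a • (o + ι x) + b • (o + ι y) := by
    rw [map_add, map_smul, map_smul]
    obtain rfl : b = 1 - a := by linarith
    module
  rw [e]; exact h

theorem isometry_sec : Isometry (fun x : Es d => o + ι x) := by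
  refine Isometry.of_dist_eq fun x y => ?_
  rw [dist_eq_norm, dist_eq_norm, add_sub_add_left_eq_sub, ← map_sub, ι.norm_map]

theorem sec_compact (hK : IsCompact K) : IsCompact (sec K o ι) :=
  (isometry_sec (o := o) (ι := ι)).isClosedEmbedding.isCompact_preimage hK

theorem sec_int (ho : o ∈ interior K) : (0 : Es d) ∈ interior (sec K o ι) := by
  have hc : Continuous (fun x : Es d => o + ι x) := (isometry_sec (o := o) (ι := ι)).continuous
  have h1 : IsOpen ((fun x : Es d => o + ι x) ⁻¹' interior K) := isOpen_interior.preimage hc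
  refine mem_interior.2 ⟨_, fun x hx => ?_, h1, ?_⟩
  · have hx' : o + ι x ∈ interior K := hx
    show o + ι x ∈ K
    exact interior_subset hx'
  · show o + ι 0 ∈ interior K
    rw [map_zero, add_zero]; exact ho

/-- the restriction of the functional `v` to the hyperplane -/
noncomputable def rs (ι : Es d →ₗᵢ[ℝ] Es (d + 1)) : Es (d + 1) →L[ℝ] Es d :=
  ContinuousLinearMap.adjoint ι.toContinuousLinearMap

theorem inner_rs (v : Es (d + 1)) (x : Es d) : ⟪rs ι v, x⟫_ℝ = ⟪v, ι x⟫_ℝ :=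
  ContinuousLinearMap.adjoint_inner_left _ _ _

theorem rs_mem {v : Es (d + 1)} (hv : v ∈ Pol K o) : rs ι v ∈ Pol (sec K o ι) 0 := by
  intro x hx
  rw [sub_zero, inner_rs]
  have := hv _ hx
  rwa [add_sub_cancel_left] at this

/-- directions in uniform form -/
theorem star {B : Set (Es d)} (hBc : IsCompact B) (hB0 : (0 : Es d) ∈ interior B)
    (W : Finset (Es d)) (hW : ∀ y ∈ Pol B 0, ∃ w ∈ W, Co (Pol B 0) y w) :
    ∃ (T : Finset (Es d)) (ρ : ℝ), T.card ≤ W.card ∧ 0 < ρ ∧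
      ∀ w ∈ Pol B 0, ∃ t ∈ T, ∀ x ∈ B, ⟪w, x⟫_ℝ - ⟪t, x⟫_ℝ ≤ 1 - ρ := by
  classical
  have hQ : Convex ℝ (Pol B 0) := Pol.convex B 0
  have hQc : IsCompact (Pol B 0) := Pol.isCompact hB0
  obtain ⟨C, hC⟩ := hQc.isBounded.exists_norm_le
  have hC0 : 0 ≤ C := (norm_nonneg _).trans (hC 0 (interior_subset (Pol.zero_mem_interior hBc)))
  obtain ⟨r, hr, hr1⟩ := unif hQ hQc subset_rfl (fun w : W => (w : Es d)) (by
    intro x hx
    obtain ⟨v, hv, h1⟩ := hW x hx
    exact ⟨⟨v, hv⟩, h1⟩)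
  obtain ⟨ρ, hρ, hρ1⟩ := Pool.Agent.W677.Summand.depth hQc W r (fun y hy => by
    obtain ⟨w, hw⟩ := hr1 y hy
    exact ⟨w, w.2, hw⟩)
  set κ : ℝ := ρ / (C + 1) with hκ
  have hκ0 : 0 < κ := by positivity
  refine ⟨W.image (fun w => -(r • w)), κ / (1 + κ), Finset.card_image_le, by positivity, ?_⟩
  intro y hy
  obtain ⟨w, hw, h1⟩ := hρ1 y hy
  refine ⟨-(r • w), Finset.mem_image_of_mem (fun w => -(r • w)) hw, fun x hx => ?_⟩
  have h0 : y + r • w ∈ Pol B 0 := by
    have := h1 0 (by rw [norm_zero]; exact hρ.le)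
    rwa [add_zero] at this
  have h2 := h1 (κ • (y + r • w)) (by
    rw [norm_smul, Real.norm_eq_abs, abs_of_pos hκ0, hκ, div_mul_eq_mul_div,
      div_le_iff₀ (by positivity)]
    have := hC _ h0
    gcongr
    linarith) x hx
  rw [sub_zero, inner_add_left, real_inner_smul_left] at h2
  have h3 : ⟪y, x⟫_ℝ - ⟪-(r • w), x⟫_ℝ = ⟪y + r • w, x⟫_ℝ := by
    rw [inner_neg_left, inner_add_left]; ring
  rw [h3]
  have h4 : 1 - κ / (1 + κ) = 1 / (1 + κ) := by field_simp; ring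
  rw [h4, le_div_iff₀ (by positivity)]
  linarith

/-- **The bound.** -/
theorem dirs_two (H : Hyp K o p n ι) (W : Finset (Es d))
    (hW : ∀ y ∈ Pol (sec K o ι) 0, ∃ w ∈ W, Co (Pol (sec K o ι) 0) y w) :
    ∃ D : Finset (Es (d + 1)), D.card ≤ 2 * W.card ∧ ∀ v ∈ Pol K o, ∃ u ∈ D, Co (Pol K o) v u := by
  obtain ⟨T, ρ, hT, hρ, h1⟩ := star (sec_compact H.comp) (sec_int H.int) W hW
  obtain ⟨D, hD, h2⟩ := core H T hρ
  refine ⟨D, hD.trans (by omega), fun v hv => ?_⟩
  obtain ⟨t, ht, h3⟩ := h1 (rs ι v) (rs_mem hv)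
  obtain ⟨u, hu, h4⟩ := h2 v hv ⟨t, ht, fun x hx => by
    have := h3 x hx
    rwa [inner_rs] at this⟩
  exact ⟨u, hu, 1, one_pos, by rwa [one_smul]⟩

end Pool.Agent.Q139.Cone
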